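import Pool.Agent.Lib.MP_5d01ce_co.FanoBoth

/-!
A lower bound for the rank of a set of points and characters, by averaging over translations.
-/

set_option autoImplicit false

namespace Pool.Agent.Lib.MP_5d01ce_co

open Set Submodule

namespace Sys

variable {k : ℕ}

/-- translation of functions -/
def tr (g : G k) : Vec k →ₗ[ZMod 3] Vec k where
  toFun f := fun s => f (s + g)
  map_add' _ _ := rfl
  map_smul' _ _ := rfl

theorem tr_injective (g : G k) : Function.Injective (tr g) := by
  intro f f' h
  ext s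
  have := congrFun h (s + g)
  simpa [tr, add_assoc, add_self_G] using this

/-- translation of points -/
def sh (g : G k) : Gr k → Gr k
  | .inl s => .inl (s + g)
  | .inr z => .inr z

theorem sh_sh (g : G k) (x : Gr k) : sh g (sh g x) = x := by
  rcases x with s | z
  · simp [sh, add_assoc, add_self_G]
  · rfl

/-- the scalars relating the vectors before and after translation -/
def co (g : G k) : Gr k → ZMod 3
  | .inl _ => 1
  | .inr (.inl u) => sgn (pr g u)
  | .inr (.inr _) => 1

theorem co_ne_zero (g : G k) (x : Gr k) : co g x ≠ 0 := by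
  rcases x with s | u | i
  · exact one_ne_zero
  · exact sgn_ne_zero _
  · exact one_ne_zero

theorem vec_sh (w0 : Fin k → ZMod 2) (g : G k) (x : Gr k) (hx : x ∈ R1 k ∪ R2 k) :
    vec w0 (sh g x) = co g x • tr g (vec w0 x) := by
  rcases hx with ⟨s, rfl⟩ | ⟨u, rfl⟩
  · ext t
    simp only [sh, co, vec, one_smul, tr, LinearMap.coe_mk, AddHom.coe_mk, pt_apply]
    have : t = s + g ↔ t + g = s := by
      constructor
      · rintro rfl
        rw [add_assoc, add_self_G, add_zero]
      · rintro rfl
        rw [add_assoc, add_self_G, add_zero]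
    simp only [this]
  · ext t
    simp only [sh, co, vec, tr, LinearMap.coe_mk, AddHom.coe_mk, Pi.smul_apply, smul_eq_mul,
      chi]
    rw [pr_add_left, sgn_add]
    have := sgn_mul_self (pr g u)
    calc sgn (pr t u) = sgn (pr t u) * (sgn (pr g u) * sgn (pr g u)) := by rw [this, mul_one]
      _ = _ := by ring

theorem li_sh (w0 : Fin k → ZMod 2) (g : G k) (J : Set (Gr k)) (hJ : J ⊆ R1 k ∪ R2 k) :
    LinearIndepOn (ZMod 3) (vec w0) (sh g '' J) ↔ LinearIndepOn (ZMod 3) (vec w0) J := by
  have h0 := linearIndepOn_equiv (R := ZMod 3) (Function.Involutive.toPerm (sh g) (sh_sh g))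
    (f := vec w0) (s := J)
  have h1 : (Function.Involutive.toPerm (sh g) (sh_sh g)) '' J = sh g '' J := rfl
  rw [h1] at h0
  rw [← h0]
  unfold LinearIndepOn
  have e2 : (fun x : J => (vec w0 ∘ (Function.Involutive.toPerm (sh g) (sh_sh g))) x) =
      (fun x : J => Units.mk0 (co g x) (co_ne_zero g x)) •
        (tr g ∘ (fun x : J => vec w0 x)) := by
    ext1 x
    exact vec_sh w0 g x (hJ x.2)
  rw [e2, LinearIndependent.units_smul_iff]
  exact LinearMap.linearIndependent_iff _ (LinearMap.ker_eq_bot.2 (tr_injective g))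

/-- points -/
abbrev ptS (A : Finset (G k)) : Set (Gr k) := (fun s : G k => (Sum.inl s : Gr k)) '' (A : Set (G k))
/-- characters -/
abbrev chS (B : Finset (G k)) : Set (Gr k) :=
  (fun u : G k => (Sum.inr (Sum.inl u) : Gr k)) '' (B : Set (G k))

theorem inj1 : Function.Injective (fun s : G k => (Sum.inl s : Gr k)) := by
  intro a b h
  simpa using h

theorem inj2 : Function.Injective (fun u : G k => (Sum.inr (Sum.inl u) : Gr k)) := by
  intro a b h
  simpa using h

theorem ptS_subset (A : Finset (G k)) : ptS A ⊆ R1 k := by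
  rintro _ ⟨s, -, rfl⟩
  exact ⟨s, rfl⟩

theorem chS_subset (A : Finset (G k)) : chS A ⊆ R2 k := by
  rintro _ ⟨s, -, rfl⟩
  exact ⟨s, rfl⟩

theorem ncard_chS_union_ptS (A B : Finset (G k)) : (chS B ∪ ptS A).ncard = B.card + A.card := by
  rw [ncard_union_eq _ (toFinite _) (toFinite _), ncard_image_of_injective _ inj2,
    ncard_image_of_injective _ inj1, ncard_coe_finset, ncard_coe_finset]
  rw [disjoint_left]
  rintro _ ⟨u, -, rfl⟩ ⟨s, -, hs⟩
  cases hs

theorem averaging (w0 : Fin k → ZMod 2) (hk : 2 ≤ k) (A B : Finset (G k)) :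
    ∃ I : Set (Gr k), I ⊆ chS B ∪ ptS A ∧ LinearIndepOn (ZMod 3) (vec w0) I ∧
      16 ^ k * (A.card + B.card) ≤ 16 ^ k * I.ncard + A.card * B.card := by
  classical
  have h := tightData w0 hk
  -- extend the characters by points to a basis
  obtain ⟨J, hJ, hJcard⟩ : ∃ J : Finset (G k), LinearIndepOn (ZMod 3) (vec w0) (chS B ∪ ptS J) ∧
      16 ^ k ≤ B.card + J.card := by
    have hne : (Finset.univ.filter (fun J : Finset (G k) =>
        LinearIndepOn (ZMod 3) (vec w0) (chS B ∪ ptS J))).Nonempty := by
      refine ⟨∅, ?_⟩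
      simp only [Finset.mem_filter, Finset.mem_univ, true_and, ptS, Finset.coe_empty,
        image_empty, union_empty]
      exact h.ind₂.mono (chS_subset B)
    obtain ⟨J, hJ, hmax⟩ := Finset.exists_max_image _ Finset.card hne
    simp only [Finset.mem_filter, Finset.mem_univ, true_and] at hJ hmax
    refine ⟨J, hJ, ?_⟩
    by_contra! hlt
    rw [← ncard_chS_union_ptS, ← h.card₁] at hlt
    obtain ⟨e, ⟨s, rfl⟩, he, hLI⟩ := h.lin_aug hJ h.ind₁ hlt
    have hsJ : s ∉ J := fun hs => he (Or.inr ⟨s, hs, rfl⟩)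
    have := hmax (insert s J) (by
      have h4 : ptS (insert s J) = insert (Sum.inl s) (ptS J) := by
        show _ '' _ = _
        rw [Finset.coe_insert, image_insert_eq]
      rw [h4, union_insert]
      exact hLI)
    rw [Finset.card_insert_of_notMem hsJ] at this
    omega
  -- choose the translation
  set c : G k → ℕ := fun g => (A.filter (fun a => a + g ∈ J)).card with hc
  have hsum : ∑ g : G k, c g = A.card * J.card := by
    have h1 : ∀ g, c g = ∑ a ∈ A, if a + g ∈ J then 1 else 0 := by
      intro g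
      rw [hc]
      simp only [Finset.card_filter]
    simp only [h1]
    rw [Finset.sum_comm]
    have h2 : ∀ a : G k, (∑ g : G k, if a + g ∈ J then 1 else 0) = J.card := by
      intro a
      calc (∑ g : G k, if a + g ∈ J then 1 else 0) = ∑ g : G k, if g ∈ J then 1 else 0 :=
            Equiv.sum_comp (Equiv.addLeft a) (fun g => if g ∈ J then (1 : ℕ) else 0)
        _ = J.card := by simp
    simp only [h2, Finset.sum_const, smul_eq_mul]
  obtain ⟨g, hg⟩ : ∃ g, A.card * J.card ≤ 16 ^ k * c g := by
    by_contra! hcon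
    have h1 : ∑ g : G k, 16 ^ k * c g < ∑ _g : G k, A.card * J.card :=
      Finset.sum_lt_sum_of_nonempty Finset.univ_nonempty (fun g _ => hcon g)
    rw [← Finset.mul_sum, hsum, Finset.sum_const, Finset.card_univ, card_G, smul_eq_mul] at h1
    exact lt_irrefl _ h1
  refine ⟨chS B ∪ ptS (A.filter (fun a => a + g ∈ J)), ?_, ?_, ?_⟩
  · apply union_subset_union_right
    apply image_mono
    intro x hx
    exact (Finset.mem_filter.1 hx).1
  · have h1 := (li_sh w0 g (chS B ∪ ptS J) (union_subset
      ((chS_subset B).trans subset_union_right) ((ptS_subset J).trans subset_union_left))).2 hJ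
    apply h1.mono
    rintro _ (⟨u, hu, rfl⟩ | ⟨a, ha, rfl⟩)
    · exact ⟨Sum.inr (Sum.inl u), Or.inl ⟨u, hu, rfl⟩, rfl⟩
    · have ha' : a ∈ A.filter (fun a => a + g ∈ J) := ha
      refine ⟨Sum.inl (a + g), Or.inr ⟨a + g, (Finset.mem_filter.1 ha').2, rfl⟩, ?_⟩
      simp [sh, add_assoc, add_self_G]
  · rw [ncard_chS_union_ptS]
    have e1 : (A.filter (fun a => a + g ∈ J)).card = c g := rfl
    rw [e1]
    have h2 : A.card * 16 ^ k ≤ A.card * (B.card + J.card) := Nat.mul_le_mul_left _ hJcard
    nlinarith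

end Sys

end Pool.Agent.Lib.MP_5d01ce_co
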