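import Pool.Agent.Lib.MP_5d01ce_co.Minor

/-!
Two tightened ternary matroids of different ranks are incomparable.
-/

set_option autoImplicit false

namespace Pool.Agent.Lib.MP_5d01ce_co

open Set Submodule

variable {α V α' V' : Type} [AddCommGroup V] [Module (ZMod 3) V]
  [AddCommGroup V'] [Module (ZMod 3) V']
  {v : α → V} {S₁ S₂ : Set α} {n : ℕ} {v' : α' → V'} {S₁' S₂' : Set α'} {n' : ℕ}

section Aux

variable {Q : Type} [AddCommGroup Q] [Module (ZMod 3) Q]

theorem li3_coeff {x y z : Q} (h : LinearIndependent (ZMod 3) ![x, y, z]) (a b c : ZMod 3)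
    (habc : a • x + b • y + c • z = 0) : a = 0 ∧ b = 0 ∧ c = 0 := by
  have := Fintype.linearIndependent_iff.1 h ![a, b, c] (by
    simp [Fin.sum_univ_three, habc])
  exact ⟨this 0, this 1, this 2⟩

theorem li_12 {x y z : Q} (h : LinearIndependent (ZMod 3) ![x, y, z]) :
    LinearIndependent (ZMod 3) ![x, y] := by
  rw [LinearIndependent.pair_iff]
  intro s t hst
  have := li3_coeff h s t 0 (by rw [hst, zero_smul, add_zero])
  exact ⟨this.1, this.2.1⟩

theorem li_13 {x y z : Q} (h : LinearIndependent (ZMod 3) ![x, y, z]) :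
    LinearIndependent (ZMod 3) ![x, z] := by
  rw [LinearIndependent.pair_iff]
  intro s t hst
  have := li3_coeff h s 0 t (by rw [zero_smul, add_zero, hst])
  exact ⟨this.1, this.2.2⟩

theorem li_23 {x y z : Q} (h : LinearIndependent (ZMod 3) ![x, y, z]) :
    LinearIndependent (ZMod 3) ![y, z] := by
  rw [LinearIndependent.pair_iff]
  intro s t hst
  have := li3_coeff h 0 s t (by rw [zero_smul, zero_add, hst])
  exact ⟨this.2.1, this.2.2⟩

theorem li_swap {x y : Q} (h : LinearIndependent (ZMod 3) ![x, y]) :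
    LinearIndependent (ZMod 3) ![y, x] := by
  rw [LinearIndependent.pair_iff] at h ⊢
  intro s t hst
  have := h t s (by rw [add_comm, hst])
  exact ⟨this.2, this.1⟩

end Aux

/-- The core contradiction: the independent sets of a tightened matroid cannot be those of
a ternary matroid up to one exceptional set `Z ≠ S₁`. -/
theorem TightData.core (h : TightData (ZMod 3) v S₁ S₂ n) (hF : Fano v S₁)
    (φ : α → α') (hφ : Function.Injective φ) (I : Set α') (hI : ∀ x, φ x ∉ I)
    (Z : Set α) (hZ : Z ≠ S₁)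
    (hiff : ∀ J, J ≠ Z → (TInd (ZMod 3) v S₁ S₂ J ↔ LinearIndepOn (ZMod 3) v' (φ '' J ∪ I))) :
    False := by
  classical
  have := h.fin
  obtain ⟨r0, hr0, hr0Z⟩ : ∃ r0 ∈ S₁, ∀ J : Set α, r0 ∈ J → J.ncard ≤ n → J ≠ Z := by
    by_cases hsub : S₁ ⊆ Z
    · have hne : S₁.Nonempty := by
        rw [← ncard_pos, h.card₁]
        linarith [h.two_le]
      obtain ⟨r0, hr0⟩ := hne
      refine ⟨r0, hr0, ?_⟩
      rintro J - hJn rfl
      have := ncard_lt_ncard (ssubset_of_subset_of_ne hsub hZ.symm) (toFinite J)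
      rw [h.card₁] at this
      omega
    · obtain ⟨r0, hr0, hr0Z⟩ := not_subset.1 hsub
      refine ⟨r0, hr0, ?_⟩
      rintro J hJ - rfl
      exact hr0Z hJ
  obtain ⟨r1, r2, r3, d1, d2, d3, d4, hnd, hr1, hr2, hr3, hd1, hd2, hd3, hd4, hyes, hno⟩ :=
    hF r0 hr0
  simp only [List.nodup_cons, List.mem_cons, List.not_mem_nil, or_false, not_or,
    not_false_eq_true, and_true, List.nodup_nil] at hnd
  obtain ⟨⟨n01, n02, n03, -, -, -, -⟩, ⟨n12, n13, m11, m12, m13, m14⟩,
    ⟨n23, m21, m22, m23, m24⟩, ⟨m31, m32, m33, m34⟩, ⟨q12, q13, q14⟩, ⟨q23, q24⟩, q34⟩ := hnd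
  set X : Set α := S₁ \ {r1, r2, r3} with hX
  have hr0X : r0 ∈ X := by
    refine ⟨hr0, ?_⟩
    simp only [mem_insert_iff, mem_singleton_iff, not_or]
    exact ⟨n01, n02, n03⟩
  have h123 : ({r1, r2, r3} : Set α).ncard = 3 := by
    rw [ncard_insert_of_notMem (by simp [n12, n13]), ncard_pair n23]
  have hXc : X.ncard + 3 = n := by
    rw [hX, ← h.card₁, ← h123]
    exact ncard_sdiff_add_ncard_of_subset (by
      rintro x (rfl | rfl | rfl) <;> assumption) (toFinite _)
  have hr1X : r1 ∉ X := fun hx => hx.2 (Or.inl rfl)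
  have hr2X : r2 ∉ X := fun hx => hx.2 (Or.inr (Or.inl rfl))
  have hr3X : r3 ∉ X := fun hx => hx.2 (Or.inr (Or.inr rfl))
  have hd1X : d1 ∉ X := fun hx => hd1 hx.1
  have hd2X : d2 ∉ X := fun hx => hd2 hx.1
  have hd3X : d3 ∉ X := fun hx => hd3 hx.1
  have hd4X : d4 ∉ X := fun hx => hd4 hx.1
  -- `X` itself is independent on the other side
  have hXind : LinearIndepOn (ZMod 3) v' (φ '' X ∪ I) := by
    rw [← hiff X (hr0Z X hr0X (by omega))]
    have hlt : X.ncard < n := by omega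
    exact h.tind_of_lt (h.ind₁.mono sdiff_subset) hlt
  set W : Submodule (ZMod 3) V' := span (ZMod 3) (v' '' (φ '' X ∪ I)) with hW
  set b : α → V' ⧸ W := fun x => W.mkQ (v' (φ x)) with hb
  have conv : ∀ x y z : α, x ≠ y → x ≠ z → y ≠ z → x ∉ X → y ∉ X → z ∉ X →
      (TInd (ZMod 3) v S₁ S₂ (X ∪ {x, y, z}) ↔
        LinearIndependent (ZMod 3) ![b x, b y, b z]) := by
    intro x y z hxy hxz hyz hx hy hz
    have hcard : (X ∪ {x, y, z}).ncard ≤ n := by
      refine (ncard_union_le _ _).trans ?_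
      have : ({x, y, z} : Set α).ncard ≤ 3 := by
        rw [ncard_insert_of_notMem (by simp [hxy, hxz]), ncard_pair hyz]
      omega
    rw [hiff _ (hr0Z _ (Or.inl hr0X) hcard)]
    have e1 : φ '' (X ∪ {x, y, z}) ∪ I = (φ '' X ∪ I) ∪ {φ x, φ y, φ z} := by
      rw [image_union, image_insert_eq, image_insert_eq, image_singleton]
      ext t
      simp only [mem_union]
      tauto
    have hdisj : Disjoint (φ '' X ∪ I) {φ x, φ y, φ z} := by
      rw [disjoint_right]
      have hgen : ∀ w, w ∉ X → φ w ∉ φ '' X ∪ I := by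
        rintro w hw (⟨w', hw', hww⟩ | hwI)
        · exact hw (hφ hww ▸ hw')
        · exact hI w hwI
      rintro t (rfl | rfl | rfl)
      · exact hgen x hx
      · exact hgen y hy
      · exact hgen z hz
    rw [e1, linearIndepOn_union_iff_quotient hdisj,
      linearIndepOn_triple_iff _ (hφ.ne hxy) (hφ.ne hxz) (hφ.ne hyz)]
    exact and_iff_right hXind
  -- independence in the tightened matroid of sets `X ∪ T`
  have hTyes : ∀ x y z : α, (x ∉ S₁ ∨ y ∉ S₁ ∨ z ∉ S₁) →
      LinearIndepOn (ZMod 3) v (X ∪ {x, y, z}) → TInd (ZMod 3) v S₁ S₂ (X ∪ {x, y, z}) := by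
    intro x y z hor hLI
    refine ⟨hLI, ?_, ?_⟩
    · intro hS
      rcases hor with hx | hx | hx <;> apply hx <;> rw [← hS] <;> simp
    · intro hS
      have : r0 ∈ S₂ := by
        rw [← hS]
        exact Or.inl hr0X
      exact disjoint_left.1 h.disj hr0 this
  have sym3 : ∀ x y z : α, ({x, y, z} : Set α) = {x, z, y} := by
    intro x y z
    rw [Set.pair_comm y z]
  refine no_fano (b r1) (b r2) (b r3) (b d1) (b d2) (b d3) (b d4)
    ?_ ?_ ?_ ?_ ?_ ?_ ?_ ?_ ?_ ?_ ?_ ?_ ?_ ?_ ?_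
  · exact (conv _ _ _ q12 q13 q23 hd1X hd2X hd3X).1
      (hTyes _ _ _ (Or.inl hd1) (hyes _ (by simp)))
  · exact (conv _ _ _ (Ne.symm q24) (Ne.symm q34) q23 hd4X hd2X hd3X).1
      (hTyes _ _ _ (Or.inl hd4) (hyes _ (by simp)))
  · exact (conv _ _ _ m11 m13 q13 hr1X hd1X hd3X).1
      (hTyes _ _ _ (Or.inr (Or.inl hd1)) (hyes _ (by simp)))
  · exact (conv _ _ _ m21 m22 q12 hr2X hd1X hd2X).1
      (hTyes _ _ _ (Or.inr (Or.inl hd1)) (hyes _ (by simp)))
  · exact (conv _ _ _ m31 m32 q12 hr3X hd1X hd2X).1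
      (hTyes _ _ _ (Or.inr (Or.inl hd1)) (hyes _ (by simp)))
  · have := (conv _ _ _ (Ne.symm q24) (Ne.symm q34) q23 hd4X hd2X hd3X).1
      (hTyes _ _ _ (Or.inl hd4) (hyes _ (by simp)))
    exact li_swap (li_13 this)
  · have := (conv _ _ _ (Ne.symm q24) (Ne.symm q34) q23 hd4X hd2X hd3X).1
      (hTyes _ _ _ (Or.inl hd4) (hyes _ (by simp)))
    exact li_swap (li_12 this)
  · have := (conv _ _ _ m11 m14 q14 hr1X hd1X hd4X).1
      (hTyes _ _ _ (Or.inr (Or.inl hd1)) (hyes _ (by simp)))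
    exact li_23 this
  · intro hL
    exact hno _ (by simp) ((conv _ _ _ m11 m12 q12 hr1X hd1X hd2X).2 hL).1
  · intro hL
    exact hno _ (by simp) ((conv _ _ _ m13 m14 q34 hr1X hd3X hd4X).2 hL).1
  · intro hL
    exact hno _ (by simp) ((conv _ _ _ m21 m23 q13 hr2X hd1X hd3X).2 hL).1
  · intro hL
    exact hno _ (by simp) ((conv _ _ _ m22 m24 q24 hr2X hd2X hd4X).2 hL).1
  · intro hL
    exact hno _ (by simp) ((conv _ _ _ m31 m34 q14 hr3X hd1X hd4X).2 hL).1
  · intro hL
    exact hno _ (by simp) ((conv _ _ _ m32 m33 q23 hr3X hd2X hd3X).2 hL).1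
  · intro hL
    have := ((conv _ _ _ n12 n13 n23 hr1X hr2X hr3X).2 hL).2.1
    apply this
    rw [hX]
    apply sdiff_union_of_subset
    rintro x (rfl | rfl | rfl) <;> assumption

/-- Tightened ternary matroids with Fano configurations at both special bases and with
different ranks are incomparable in the minor order. -/
theorem TightData.not_isoMinor (h : TightData (ZMod 3) v S₁ S₂ n)
    (h' : TightData (ZMod 3) v' S₁' S₂' n') (hF₁ : Fano v S₁) (hF₂ : Fano v S₂)
    (hn : n ≠ n') : ¬ IsoMinor h.matroid h'.matroid := by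
  classical
  have := h.fin
  have := h'.fin
  rintro ⟨N, hN, e, he⟩
  obtain ⟨I, hI, hIE, hiff⟩ := exists_indep_of_isMinor hN
  set φ : α → α' := fun x => (e ⟨x, mem_univ x⟩ : α') with hφdef
  have hφ : Function.Injective φ := by
    intro x y hxy
    have := e.injective (Subtype.ext hxy)
    simpa using this
  have hφE : ∀ x, φ x ∈ N.E := fun x => (e ⟨x, mem_univ x⟩).2
  have hφI : ∀ x, φ x ∉ I := fun x hx => disjoint_left.1 hIE hx (hφE x)
  have hM : ∀ J : Set α, TInd (ZMod 3) v S₁ S₂ J ↔ TInd (ZMod 3) v' S₁' S₂' (φ '' J ∪ I) := by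
    intro J
    have h1 := he ((fun x : h.matroid.E => (x : α)) ⁻¹' J)
    have e1 : (fun x : h.matroid.E => (x : α)) '' ((fun x : h.matroid.E => (x : α)) ⁻¹' J) = J := by
      ext x
      constructor
      · rintro ⟨y, hy, rfl⟩
        exact hy
      · intro hx
        exact ⟨⟨x, mem_univ x⟩, hx, rfl⟩
    have e2 : (fun x : h.matroid.E => (e x : α')) '' ((fun x : h.matroid.E => (x : α)) ⁻¹' J)
        = φ '' J := by
      ext x
      constructor
      · rintro ⟨y, hy, rfl⟩
        exact ⟨y, hy, rfl⟩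
      · rintro ⟨y, hy, rfl⟩
        exact ⟨⟨y, mem_univ y⟩, hy, rfl⟩
    rw [e1, e2, h.matroid_indep_iff] at h1
    rw [h1, hiff _ (by rintro _ ⟨x, -, rfl⟩; exact hφE x), h'.matroid_indep_iff]
  by_cases hboth : (∃ J, φ '' J ∪ I = S₁') ∧ (∃ J, φ '' J ∪ I = S₂')
  · obtain ⟨⟨J₁, hJ₁⟩, ⟨J₂, hJ₂⟩⟩ := hboth
    have hIempty : I = ∅ := by
      rw [eq_empty_iff_forall_notMem]
      intro x hx
      have hx1 : x ∈ S₁' := by rw [← hJ₁]; exact Or.inr hx
      have hx2 : x ∈ S₂' := by rw [← hJ₂]; exact Or.inr hx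
      exact disjoint_left.1 h'.disj hx1 hx2
    subst hIempty
    simp only [union_empty] at hJ₁ hJ₂ hM
    apply hn
    apply le_antisymm
    · -- n ≤ n'
      have hne : S₁.Nonempty := by
        rw [← ncard_pos, h.card₁]; linarith [h.two_le]
      have hne2 : S₂.Nonempty := by
        rw [← ncard_pos, h.card₂]; linarith [h.two_le]
      obtain ⟨x, hx⟩ := hne
      obtain ⟨f, hf⟩ := hne2
      have hf1 : f ∉ S₁ := fun hh => disjoint_left.1 h.disj hh hf
      have hT := h.tind_swap₁ hx hf1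
      have hc : (insert f (S₁ \ {x})).ncard = n := by
        rw [ncard_insert_of_notMem (fun hh => hf1 hh.1) (toFinite _),
          ncard_sdiff_singleton_add_one hx (toFinite _), h.card₁]
      have h2 := h'.bound _ ((hM _).1 hT).1
      rw [ncard_image_of_injective _ hφ, hc] at h2
      exact h2
    · -- n' ≤ n
      have hne : S₁'.Nonempty := by
        rw [← ncard_pos, h'.card₁]; linarith [h'.two_le]
      have hne2 : S₂'.Nonempty := by
        rw [← ncard_pos, h'.card₂]; linarith [h'.two_le]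
      obtain ⟨x', hx'⟩ := hne
      obtain ⟨f', hf'⟩ := hne2
      rw [← hJ₁] at hx'
      rw [← hJ₂] at hf'
      obtain ⟨x, hx, rfl⟩ := hx'
      obtain ⟨f, hf, rfl⟩ := hf'
      have hf1 : φ f ∉ S₁' := fun hh => disjoint_left.1 h'.disj hh
        (hJ₂ ▸ mem_image_of_mem φ hf)
      have hfJ : f ∉ J₁ := fun hh => hf1 (hJ₁ ▸ mem_image_of_mem φ hh)
      have hT := h'.tind_swap₁ (hJ₁ ▸ mem_image_of_mem φ hx) hf1
      have himg : insert (φ f) (S₁' \ {φ x}) = φ '' (insert f (J₁ \ {x})) := by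
        rw [image_insert_eq, image_sdiff hφ, image_singleton, hJ₁]
      rw [himg, ← hM] at hT
      have h2 := h.bound _ hT.1
      have hc1 : J₁.ncard = n' := by
        rw [← ncard_image_of_injective _ hφ, hJ₁, h'.card₁]
      rw [ncard_insert_of_notMem (fun hh => hfJ hh.1) (toFinite _),
        ncard_sdiff_singleton_add_one hx (toFinite _), hc1] at h2
      exact h2
  · -- at most one exceptional set
    have hex : ∃ Z : Set α, ∀ J, J ≠ Z →
        (TInd (ZMod 3) v S₁ S₂ J ↔ LinearIndepOn (ZMod 3) v' (φ '' J ∪ I)) := by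
      have gen : ∀ S T : Set α', (¬ ∃ J, φ '' J ∪ I = T) →
          ∀ J, J ≠ {x | φ x ∈ S} → φ '' J ∪ I ≠ S ∧ φ '' J ∪ I ≠ T := by
        intro S T hT J hJ
        refine ⟨?_, fun hh => hT ⟨J, hh⟩⟩
        intro hS
        apply hJ
        ext x
        constructor
        · intro hx
          show φ x ∈ S
          rw [← hS]
          exact Or.inl (mem_image_of_mem φ hx)
        · intro hx
          have hx' : φ x ∈ S := hx
          rw [← hS] at hx'
          rcases hx' with ⟨y, hy, hyx⟩ | hx'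
          · exact hφ hyx ▸ hy
          · exact absurd hx' (hφI x)
      by_cases h2 : ∃ J, φ '' J ∪ I = S₂'
      · have h1 : ¬ ∃ J, φ '' J ∪ I = S₁' := fun h1 => hboth ⟨h1, h2⟩
        refine ⟨{x | φ x ∈ S₂'}, fun J hJ => ?_⟩
        have := gen S₂' S₁' h1 J hJ
        rw [hM]
        exact ⟨fun hh => hh.1, fun hh => ⟨hh, this.2, this.1⟩⟩
      · refine ⟨{x | φ x ∈ S₁'}, fun J hJ => ?_⟩
        have := gen S₁' S₂' h2 J hJ
        rw [hM]
        exact ⟨fun hh => hh.1, fun hh => ⟨hh, this.1, this.2⟩⟩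
    obtain ⟨Z, hZ⟩ := hex
    by_cases hZ1 : Z = S₁
    · have hZ2 : Z ≠ S₂ := by
        rintro rfl
        have hne : Z.Nonempty := by
          rw [← ncard_pos, h.card₂]; linarith [h.two_le]
        obtain ⟨x, hx⟩ := hne
        exact disjoint_left.1 h.disj (hZ1 ▸ hx) hx
      refine h.symm.core (v' := v') hF₂ φ hφ I hφI Z hZ2 (fun J hJ => ?_)
      rw [← hZ J hJ]
      exact ⟨fun hh => ⟨hh.1, hh.2.2, hh.2.1⟩, fun hh => ⟨hh.1, hh.2.2, hh.2.1⟩⟩
    · exact h.core hF₁ φ hφ I hφI Z hZ1 hZ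

end Pool.Agent.Lib.MP_5d01ce_co
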