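import Pool.Agent.Lib.MP_5d01ce_co.Girth

/-!
The tightened ternary matroid on `2 * 16 ^ k + k` elements has Tutte connectivity `k`.
-/

set_option autoImplicit false

namespace Pool.Agent.Lib.MP_5d01ce_co

open Set Submodule

theorem isSeparation_symm {α : Type} {M : Matroid α} {j : ℕ} {X Y : Set α}
    (h : IsSeparation M j X Y) : IsSeparation M j Y X := by
  obtain ⟨h1, h2, h3, h4, h5⟩ := h
  exact ⟨by rw [union_comm]; exact h1, h2.symm, h4, h3, by rw [add_comm (M.eRk Y)]; exact h5⟩

theorem tutteConnectivity_eq {α : Type} (M : Matroid α) (k : ℕ) (hk : 1 ≤ k)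
    (h1 : ∃ X Y, IsSeparation M k X Y)
    (h2 : ∀ j, 1 ≤ j → j < k → ∀ X Y, ¬ IsSeparation M j X Y) :
    tutteConnectivity M = k := by
  unfold tutteConnectivity
  apply le_antisymm
  · exact iInf₂_le k ⟨hk, h1⟩
  · refine le_iInf₂ fun j hj => ?_
    obtain ⟨hj1, X, Y, hXY⟩ := hj
    by_contra hlt
    rw [not_le, Nat.cast_lt] at hlt
    exact h2 j hj1 hlt X Y hXY

variable {F α V : Type} [Field F] [AddCommGroup V] [Module F V]
  {v : α → V} {S₁ S₂ : Set α} {n : ℕ}

namespace TightData

theorem eRank_le (h : TightData F v S₁ S₂ n) : h.matroid.eRank ≤ n := by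
  have := h.fin
  obtain ⟨B, hB⟩ := h.matroid.exists_isBase
  rw [← hB.encard_eq_eRank]
  have h1 := (h.matroid_indep_iff B).1 hB.indep
  rw [← (toFinite B).cast_ncard_eq, Nat.cast_le]
  exact h.bound B h1.1

theorem sep_bound (h : TightData F v S₁ S₂ n) {j : ℕ} {X Y I J : Set α}
    (hXY : IsSeparation h.matroid j X Y) (hI : TInd F v S₁ S₂ I) (hIX : I ⊆ X)
    (hJ : TInd F v S₁ S₂ J) (hJY : J ⊆ Y) : I.ncard + J.ncard + 1 ≤ n + j := by
  have := h.fin
  obtain ⟨h1, h2, h3, h4, h5⟩ := hXY
  have hI' := ((h.matroid_indep_iff I).2 hI).encard_le_eRk_of_subset hIX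
  have hJ' := ((h.matroid_indep_iff J).2 hJ).encard_le_eRk_of_subset hJY
  rw [← (toFinite I).cast_ncard_eq] at hI'
  rw [← (toFinite J).cast_ncard_eq] at hJ'
  have h6 : ((I.ncard : ℕ∞) + J.ncard + 1) ≤ n + j := by
    calc ((I.ncard : ℕ∞) + J.ncard + 1) ≤ h.matroid.eRk X + h.matroid.eRk Y + 1 := by gcongr
      _ ≤ h.matroid.eRank + j := h5
      _ ≤ n + j := by gcongr; exact h.eRank_le
  exact_mod_cast h6

/-- removing one element makes an independent set of vectors independent -/
theorem exists_tind (h : TightData F v S₁ S₂ n) {I X : Set α} (hI : LinearIndepOn F v I)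
    (hIX : I ⊆ X) : ∃ J ⊆ X, TInd F v S₁ S₂ J ∧ I.ncard ≤ J.ncard + 1 := by
  have := h.fin
  rcases lt_or_ge I.ncard n with hlt | hge
  · exact ⟨I, hIX, h.tind_of_lt hI hlt, Nat.le_succ _⟩
  · have hne : I.Nonempty := by
      rw [← ncard_pos]
      linarith [h.two_le]
    obtain ⟨x, hx⟩ := hne
    refine ⟨I \ {x}, sdiff_subset.trans hIX, ?_, ?_⟩
    · apply h.tind_of_lt (hI.mono sdiff_subset)
      have h1 := ncard_sdiff_singleton_add_one hx (toFinite I)
      have h2 := h.bound I hI
      omega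
    · rw [ncard_sdiff_singleton_add_one hx (toFinite I)]

/-- a spanning set of vectors, not contained in a special basis, is spanning -/
theorem exists_tind_full (h : TightData F v S₁ S₂ n) {I Y : Set α} (hI : LinearIndepOn F v I)
    (hIY : I ⊆ Y) (hIn : I.ncard = n) (h1 : ∃ f ∈ Y, f ∉ S₁) (h2 : ∃ f ∈ Y, f ∉ S₂) :
    ∃ J ⊆ Y, TInd F v S₁ S₂ J ∧ J.ncard = n := by
  have := h.fin
  have key : ∀ S T : Set α, TightData F v S T n → (∃ f ∈ Y, f ∉ S) → I = S →
      ∃ J ⊆ Y, TInd F v S T J ∧ J.ncard = n := by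
    intro S T hST hf hIS
    obtain ⟨f, hfY, hfS⟩ := hf
    have hne : S.Nonempty := by
      rw [← ncard_pos, hST.card₁]
      linarith [hST.two_le]
    obtain ⟨x, hx⟩ := hne
    refine ⟨insert f (S \ {x}), ?_, hST.tind_swap₁ hx hfS, ?_⟩
    · rw [← hIS]
      exact insert_subset hfY (sdiff_subset.trans hIY)
    · rw [ncard_insert_of_notMem (fun hh => hfS hh.1) (toFinite _),
        ncard_sdiff_singleton_add_one hx (toFinite _), hST.card₁]
  by_cases hI1 : I = S₁
  · exact key S₁ S₂ h h1 hI1
  by_cases hI2 : I = S₂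
  · obtain ⟨J, hJY, hJ, hJn⟩ := key S₂ S₁ h.symm h2 hI2
    exact ⟨J, hJY, ⟨hJ.1, hJ.2.2, hJ.2.1⟩, hJn⟩
  exact ⟨I, hIY, ⟨hI, hI1, hI2⟩, hIn⟩

end TightData

namespace Sys

variable {k : ℕ}

/-- the matroid -/
noncomputable def mat (w0 : Fin k → ZMod 2) (hk : 2 ≤ k) : Matroid (Gr k) :=
  (tightData w0 hk).matroid

theorem sep_P (w0 : Fin k → ZMod 2) (hk : 2 ≤ k) (hw0 : ∑ i, sgn (w0 i) = 0) :
    IsSeparation (mat w0 hk) k (PP k) (PP k)ᶜ := by
  have hE : (mat w0 hk).E = univ := rfl
  have hPP : (PP k).encard = k := by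
    rw [← (toFinite (PP k)).cast_ncard_eq, PP_ncard]
  have hr : (mat w0 hk).eRk (PP k) + 1 ≤ k := by
    have h1 : (mat w0 hk).Dep (PP k) := by
      refine ⟨?_, subset_univ _⟩
      intro hI
      exact PP_dep w0 hw0 hk (((tightData w0 hk).matroid_indep_iff _).1 hI).1
    have h2 := Matroid.eRk_lt_encard_of_dep_of_finite (toFinite (PP k)) h1
    rw [hPP] at h2
    exact Order.add_one_le_of_lt h2
  refine ⟨?_, disjoint_compl_right, hPP.ge, ?_, ?_⟩
  · rw [hE, union_compl_self]
  · have h1 : ptS (Finset.univ : Finset (G k)) ⊆ (PP k)ᶜ := by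
      rintro _ ⟨s, -, rfl⟩ ⟨i, hi⟩
      cases hi
    have h2 : (ptS (Finset.univ : Finset (G k))).encard = (16 ^ k : ℕ) := by
      rw [← (toFinite _).cast_ncard_eq, ncard_image_of_injective _ inj1, ncard_coe_finset,
        Finset.card_univ, card_G]
    refine le_trans ?_ (encard_le_encard h1)
    rw [h2, Nat.cast_le]
    exact (Nat.lt_pow_self (by norm_num)).le
  · calc (mat w0 hk).eRk (PP k) + (mat w0 hk).eRk (PP k)ᶜ + 1
        = (mat w0 hk).eRk (PP k)ᶜ + ((mat w0 hk).eRk (PP k) + 1) := by ring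
      _ ≤ (mat w0 hk).eRank + k := by
          gcongr
          exact Matroid.eRk_le_eRank _ _

theorem no_sep (w0 : Fin k → ZMod 2) (hk : k = 2 ∨ 4 ≤ k) (hk2 : 2 ≤ k) (j : ℕ) (hj : j < k)
    (X Y : Set (Gr k)) : ¬ IsSeparation (mat w0 hk2) j X Y := by
  classical
  have h := tightData w0 hk2
  -- the essential case
  have main : ∀ X Y : Set (Gr k), IsSeparation h.matroid j X Y →
      (Finset.univ.filter (fun s : G k => (Sum.inl s : Gr k) ∈ X)).card +
      (Finset.univ.filter (fun s : G k => (Sum.inr (Sum.inl s) : Gr k) ∈ X)).card ≤ 16 ^ k →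
      False := by
    intro X Y hsep hle
    have hXY : X ∪ Y = univ := hsep.1
    have hdis : Disjoint X Y := hsep.2.1
    have hYX : ∀ x, x ∈ Y ↔ x ∉ X := by
      intro x
      constructor
      · intro hx hx'
        exact disjoint_left.1 hdis hx' hx
      · intro hx
        have : x ∈ X ∪ Y := by rw [hXY]; trivial
        exact this.resolve_left hx
    set A : Finset (G k) := Finset.univ.filter (fun s : G k => (Sum.inl s : Gr k) ∈ X) with hA
    set B : Finset (G k) := Finset.univ.filter (fun s : G k => (Sum.inr (Sum.inl s) : Gr k) ∈ X)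
      with hB
    have hA' : A.card + Aᶜ.card = 16 ^ k := by
      rw [Finset.card_add_card_compl, card_G]
    have hB' : B.card + Bᶜ.card = 16 ^ k := by
      rw [Finset.card_add_card_compl, card_G]
    have hsubX : chS B ∪ ptS A ⊆ X := by
      rintro _ (⟨u, hu, rfl⟩ | ⟨s, hs, rfl⟩)
      · have : u ∈ B := hu
        simpa [hB] using this
      · have : s ∈ A := hs
        simpa [hA] using this
    have hsubY : chS Bᶜ ∪ ptS Aᶜ ⊆ Y := by
      rintro _ (⟨u, hu, rfl⟩ | ⟨s, hs, rfl⟩)
      · have : u ∈ Bᶜ := hu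
        rw [hYX]
        simpa [hB] using this
      · have : s ∈ Aᶜ := hs
        rw [hYX]
        simpa [hA] using this
    obtain ⟨IX, hIX, hLX, hcX⟩ := averaging w0 hk2 A B
    obtain ⟨IY, hIY, hLY, hcY⟩ := averaging w0 hk2 Aᶜ Bᶜ
    obtain ⟨JX, hJX, hTX, hdX⟩ := h.exists_tind hLX (hIX.trans hsubX)
    obtain ⟨JY, hJY, hTY, hdY⟩ := h.exists_tind hLY (hIY.trans hsubY)
    have hb := h.sep_bound hsep hTX hJX hTY hJY
    set n := 16 ^ k with hn
    have hkn : k * k < n := by
      calc k * k < 2 ^ k * 2 ^ k := Nat.mul_lt_mul'' Nat.lt_two_pow_self Nat.lt_two_pow_self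
        _ = 4 ^ k := by rw [← mul_pow]; norm_num
        _ ≤ 16 ^ k := Nat.pow_le_pow_left (by norm_num) k
    -- first: the number of points and characters in `X` is at most `2 k`
    have hσ : A.card + B.card ≤ 2 * k := by
      by_contra! hcon
      generalize A.card = a at *
      generalize B.card = b at *
      generalize Aᶜ.card = a' at *
      generalize Bᶜ.card = b' at *
      have e1 : a' = n - a := by omega
      have e2 : b' = n - b := by omega
      have ha : a ≤ n := by omega
      have hbn : b ≤ n := by omega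
      zify [ha, hbn] at *
      rw [e1, e2] at hcY
      have h1 : (IX.ncard : ℤ) + IY.ncard ≤ n + k := by linarith
      have h2 : (n : ℤ) * (IX.ncard + IY.ncard) ≤ n * (n + k) := by
        apply mul_le_mul_of_nonneg_left h1
        positivity
      nlinarith [mul_nonneg (sub_nonneg.2 hle) (sub_nonneg.2 hcon.le), sq_nonneg ((a : ℤ) - b),
        mul_pos (show (0 : ℤ) < n by linarith [mul_self_nonneg (k : ℤ)]) (sub_pos.2 hcon)]
    have hab : A.card * B.card ≤ k * k := by
      have h1 : 4 * (A.card * B.card) ≤ (A.card + B.card) * (A.card + B.card) := by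
        zify
        nlinarith [sq_nonneg ((A.card : ℤ) - B.card)]
      have h2 : (A.card + B.card) * (A.card + B.card) ≤ (2 * k) * (2 * k) :=
        Nat.mul_le_mul hσ hσ
      nlinarith
    have h2kn : 2 * k < n := by nlinarith
    have hIYn : IY.ncard = n := by
      apply le_antisymm (h.bound _ hLY)
      by_contra! hcon
      generalize A.card = a at *
      generalize B.card = b at *
      generalize Aᶜ.card = a' at *
      generalize Bᶜ.card = b' at *
      have e1 : a' = n - a := by omega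
      have e2 : b' = n - b := by omega
      have ha : a ≤ n := by omega
      have hbn : b ≤ n := by omega
      zify [ha, hbn] at *
      rw [e1, e2] at hcY
      nlinarith
    obtain ⟨K, hKY, hTK, hKn⟩ := h.exists_tind_full hLY (hIY.trans hsubY) hIYn (by
      have : Bᶜ.Nonempty := by
        rw [← Finset.card_pos]
        omega
      obtain ⟨u, hu⟩ := this
      refine ⟨Sum.inr (Sum.inl u), hsubY (Or.inl ⟨u, hu, rfl⟩), ?_⟩
      rintro ⟨s, hs⟩
      cases hs) (by
      have : Aᶜ.Nonempty := by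
        rw [← Finset.card_pos]
        omega
      obtain ⟨u, hu⟩ := this
      refine ⟨Sum.inl u, hsubY (Or.inr ⟨u, hu, rfl⟩), ?_⟩
      rintro ⟨s, hs⟩
      cases hs)
    -- an independent set of size `j` in `X`
    obtain ⟨L, hLX', hLc⟩ : ∃ L ⊆ X, L.ncard = j := by
      have hj1 : (j : ℕ∞) ≤ X.encard := hsep.2.2.1
      obtain ⟨L, hL, hLe⟩ := exists_subset_encard_eq hj1
      refine ⟨L, hL, ?_⟩
      rw [ncard_def, hLe]
      rfl
    have hTL : TightData.TInd (ZMod 3) (vec w0) (R1 k) (R2 k) L := by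
      apply h.tind_of_lt (girth w0 hk L (by omega))
      omega
    have := h.sep_bound hsep hTL hLX' hTK hKY
    omega
  intro hsep
  have hsep' : IsSeparation h.matroid j X Y := hsep
  by_cases hle : (Finset.univ.filter (fun s : G k => (Sum.inl s : Gr k) ∈ X)).card +
      (Finset.univ.filter (fun s : G k => (Sum.inr (Sum.inl s) : Gr k) ∈ X)).card ≤ 16 ^ k
  · exact main X Y hsep' hle
  · apply main Y X (isSeparation_symm hsep')
    have hXY : X ∪ Y = univ := hsep'.1
    have hdis : Disjoint X Y := hsep'.2.1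
    have gen : ∀ f : G k → Gr k, (Finset.univ.filter (fun s : G k => f s ∈ X)).card +
        (Finset.univ.filter (fun s : G k => f s ∈ Y)).card = 16 ^ k := by
      intro f
      have e3 : Finset.univ.filter (fun s : G k => f s ∈ Y) =
          (Finset.univ.filter (fun s : G k => f s ∈ X))ᶜ := by
        ext s
        simp only [Finset.mem_filter, Finset.mem_univ, true_and, Finset.mem_compl]
        constructor
        · intro hx hx'
          exact disjoint_left.1 hdis hx' hx
        · intro hx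
          have : f s ∈ X ∪ Y := by rw [hXY]; trivial
          exact this.resolve_left hx
      rw [e3, Finset.card_add_card_compl, card_G]
    have e1 := gen Sum.inl
    have e2 := gen (fun s => Sum.inr (Sum.inl s))
    omega

theorem connectivity (w0 : Fin k → ZMod 2) (hk : k = 2 ∨ 4 ≤ k) (hk2 : 2 ≤ k)
    (hw0 : ∑ i, sgn (w0 i) = 0) : tutteConnectivity (mat w0 hk2) = k :=
  tutteConnectivity_eq _ k (by omega) ⟨_, _, sep_P w0 hk2 hw0⟩
    (fun j _ hj X Y => no_sep w0 hk hk2 j hj X Y)

end Sys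

end Pool.Agent.Lib.MP_5d01ce_co
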