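import Mathlib.Combinatorics.Matroid.Minor.Order
import Mathlib.Combinatorics.Matroid.Rank.ENat
import Mathlib.Combinatorics.Matroid.IndepAxioms
import Mathlib.Tactic

/-!
Definitions for the problem on infinite antichains of matroids: isomorphism of matroids,
being isomorphic to a minor, uniform matroids, `j`-separations and Tutte connectivity.
-/

set_option autoImplicit false

namespace Pool.Agent.Lib.MP_5d01ce_co

open Set

/-- Two matroids are isomorphic: there is a bijection of the ground sets that preserves
independence in both directions. -/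
def Isomorphic {α β : Type} (N : Matroid α) (M : Matroid β) : Prop :=
  ∃ e : N.E ≃ M.E, ∀ I : Set N.E,
    N.Indep ((fun x : N.E => (x : α)) '' I) ↔ M.Indep ((fun x : N.E => (e x : β)) '' I)

/-- `N` is isomorphic to a minor of `M`. -/
def IsoMinor {α β : Type} (N : Matroid α) (M : Matroid β) : Prop :=
  ∃ M' : Matroid β, M' ≤m M ∧ Isomorphic N M'

/-- The uniform matroid `U_{r,n}`: the ground set is `Fin n` and a set is independent
exactly when it has at most `r` elements. -/
def unif (r n : ℕ) : Matroid (Fin n) :=
  (IndepMatroid.ofFinite (E := univ) finite_univ (fun I => I.ncard ≤ r)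
    (by simp)
    (fun I J hJ hIJ => (ncard_le_ncard hIJ (toFinite J)).trans hJ)
    (fun I J _ hJ hlt => by
      obtain ⟨e, heJ, heI⟩ := exists_mem_notMem_of_ncard_lt_ncard hlt (toFinite I)
      refine ⟨e, heJ, heI, ?_⟩
      rw [ncard_insert_of_notMem heI (toFinite I)]
      omega)
    (fun _ _ => subset_univ _)).matroid

/-- A `j`-separation of `M`: a partition `(X, Y)` of the ground set with `|X|, |Y| ≥ j` and
`r(X) + r(Y) - r(M) ≤ j - 1` (written without subtraction). -/
def IsSeparation {α : Type} (M : Matroid α) (j : ℕ) (X Y : Set α) : Prop :=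
  X ∪ Y = M.E ∧ Disjoint X Y ∧ (j : ℕ∞) ≤ X.encard ∧ (j : ℕ∞) ≤ Y.encard ∧
    M.eRk X + M.eRk Y + 1 ≤ M.eRank + j

/-- The Tutte connectivity: the least `j ≥ 1` such that there is a `j`-separation, and `⊤`
if there is none. -/
noncomputable def tutteConnectivity {α : Type} (M : Matroid α) : ℕ∞ :=
  ⨅ (j : ℕ) (_ : 1 ≤ j ∧ ∃ X Y : Set α, IsSeparation M j X Y), (j : ℕ∞)

end Pool.Agent.Lib.MP_5d01ce_co
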