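import Pool.Agent.Lib.MP_5d01ce_co.FanoConf

/-!
Both special bases of the concrete ternary matroids carry Fano configurations.
-/

set_option autoImplicit false

namespace Pool.Agent.Lib.MP_5d01ce_co

open Set Submodule

namespace Sys

variable {k : ℕ}

theorem ortho_ne {e1 e2 e3 : G k} (h : Ortho e1 e2 e3) :
    e1 ≠ e2 ∧ e1 ≠ e3 ∧ e2 ≠ e3 ∧ e1 ≠ 0 ∧ e2 ≠ 0 ∧ e3 ≠ 0 := by
  have hne : ∀ {x y : G k}, pr x x = 1 → pr x y = 0 → x ≠ y := by
    rintro x y h1 h2 rfl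
    rw [h1] at h2
    exact one_ne_zero h2
  exact ⟨hne h.p11 h.p12, hne h.p11 h.p13, hne h.p22 h.p23, hne h.p11 (pr_zero _),
    hne h.p22 (pr_zero _), hne h.p33 (pr_zero _)⟩

theorem fano1 (w0 : Fin k → ZMod 2) (hk : 2 ≤ k) : Fano (vec w0) (R1 k) := by
  obtain ⟨e1, e2, e3, h⟩ := exists_ortho hk
  obtain ⟨n12, n13, n23, n1, n2, n3⟩ := ortho_ne h
  rintro _ ⟨s0, rfl⟩
  refine ⟨Sum.inl (s0 + e1), Sum.inl (s0 + e2), Sum.inl (s0 + e3), Sum.inr (Sum.inl 0),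
    Sum.inr (Sum.inl e1), Sum.inr (Sum.inl e2), Sum.inr (Sum.inl e3), ?_, ⟨_, rfl⟩, ⟨_, rfl⟩,
    ⟨_, rfl⟩, ?_, ?_, ?_, ?_, ?_, ?_⟩
  · simp [n1, n2, n3, n12, n13, n23, n1.symm, n2.symm, n3.symm]
  · rintro ⟨s, hs⟩; cases hs
  · rintro ⟨s, hs⟩; cases hs
  · rintro ⟨s, hs⟩; cases hs
  · rintro ⟨s, hs⟩; cases hs
  · exact (fano_core w0 s0 e1 e2 e3 h).1
  · exact (fano_core w0 s0 e1 e2 e3 h).2

/-- the swap of points and characters -/
def sw : Gr k → Gr k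
  | .inl s => .inr (.inl s)
  | .inr (.inl u) => .inl u
  | .inr (.inr i) => .inr (.inr i)

theorem sw_sw (x : Gr k) : sw (sw x) = x := by
  rcases x with s | u | i <;> rfl

theorem sw_injective : Function.Injective (sw (k := k)) :=
  Function.LeftInverse.injective sw_sw

theorem vec_sw (w0 : Fin k → ZMod 2) (x : Gr k) (hx : x ∈ R1 k ∪ R2 k) :
    vec w0 (sw x) = four (vec w0 x) := by
  rcases hx with ⟨s, rfl⟩ | ⟨u, rfl⟩
  · exact (four_pt s).symm
  · exact (four_chi u).symm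

theorem li_sw (w0 : Fin k → ZMod 2) (J : Set (Gr k)) (hJ : J ⊆ R1 k ∪ R2 k) :
    LinearIndepOn (ZMod 3) (vec w0) (sw '' J) ↔ LinearIndepOn (ZMod 3) (vec w0) J := by
  have h0 := linearIndepOn_equiv (R := ZMod 3) (Function.Involutive.toPerm sw sw_sw)
    (f := vec w0) (s := J)
  have h1 : (Function.Involutive.toPerm sw sw_sw) '' J = sw '' J := rfl
  rw [h1] at h0
  rw [← h0]
  unfold LinearIndepOn
  have e2 : (fun x : J => (vec w0 ∘ (Function.Involutive.toPerm sw sw_sw)) x) =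
      four ∘ (fun x : J => vec w0 x) := by
    ext1 x
    exact vec_sw w0 x (hJ x.2)
  rw [e2]
  exact LinearMap.linearIndependent_iff _ (LinearMap.ker_eq_bot.2 four_injective)

theorem fano2 (w0 : Fin k → ZMod 2) (hk : 2 ≤ k) : Fano (vec w0) (R2 k) := by
  obtain ⟨e1, e2, e3, h⟩ := exists_ortho hk
  obtain ⟨n12, n13, n23, n1, n2, n3⟩ := ortho_ne h
  rintro _ ⟨s0, rfl⟩
  have hR : R2 k = sw '' R1 k := by
    rw [R1, R2, ← range_comp]
    rfl
  have hsub : ∀ T : Set (Gr k), T ⊆ R1 k ∪ R2 k → ∀ A : Set (Gr k),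
      (R1 k \ A) ∪ T ⊆ R1 k ∪ R2 k := by
    intro T hT A
    exact union_subset (sdiff_subset.trans subset_union_left) hT
  have him : ∀ A T : Set (Gr k), (R2 k \ sw '' A) ∪ sw '' T = sw '' ((R1 k \ A) ∪ T) := by
    intro A T
    rw [image_union, image_sdiff sw_injective, hR]
  have him3 : ∀ x y z : Gr k, ({sw x, sw y, sw z} : Set (Gr k)) = sw '' {x, y, z} := by
    intro x y z
    rw [image_insert_eq, image_insert_eq, image_singleton]
  have m1 : ∀ s : G k, (Sum.inl s : Gr k) ∈ R1 k ∪ R2 k := fun s => Or.inl ⟨s, rfl⟩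
  have m2 : ∀ s : G k, (Sum.inr (Sum.inl s) : Gr k) ∈ R1 k ∪ R2 k := fun s => Or.inr ⟨s, rfl⟩
  have hsub3 : ∀ x y z : Gr k, x ∈ R1 k ∪ R2 k → y ∈ R1 k ∪ R2 k → z ∈ R1 k ∪ R2 k →
      ({x, y, z} : Set (Gr k)) ⊆ R1 k ∪ R2 k := by
    rintro x y z hx hy hz _ (rfl | rfl | rfl) <;> assumption
  refine ⟨sw (Sum.inl (s0 + e1)), sw (Sum.inl (s0 + e2)), sw (Sum.inl (s0 + e3)),
    sw (Sum.inr (Sum.inl 0)), sw (Sum.inr (Sum.inl e1)), sw (Sum.inr (Sum.inl e2)),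
    sw (Sum.inr (Sum.inl e3)), ?_, ⟨_, rfl⟩, ⟨_, rfl⟩, ⟨_, rfl⟩, ?_, ?_, ?_, ?_, ?_, ?_⟩
  · simp [sw, n1, n2, n3, n12, n13, n23, n1.symm, n2.symm, n3.symm]
  · rintro ⟨s, hs⟩; cases hs
  · rintro ⟨s, hs⟩; cases hs
  · rintro ⟨s, hs⟩; cases hs
  · rintro ⟨s, hs⟩; cases hs
  · intro T hT
    have hf := (fano_core w0 s0 e1 e2 e3 h).1
    simp only [mem_insert_iff, mem_singleton_iff] at hT
    rcases hT with rfl | rfl | rfl | rfl | rfl | rfl
    all_goals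
      rw [him3, him3, him, li_sw]
      · apply hf
        simp
      · apply hsub
        apply hsub3 <;> first | exact m1 _ | exact m2 _
  · intro T hT
    have hf := (fano_core w0 s0 e1 e2 e3 h).2
    simp only [mem_insert_iff, mem_singleton_iff] at hT
    rcases hT with rfl | rfl | rfl | rfl | rfl | rfl
    all_goals
      rw [him3, him3, him, li_sw]
      · apply hf
        simp
      · apply hsub
        apply hsub3 <;> first | exact m1 _ | exact m2 _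

end Sys

end Pool.Agent.Lib.MP_5d01ce_co
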