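import Pool.Agent.Lib.MP_5d01ce_co.System

/-!
Fano configurations in the concrete ternary matroids.
-/

set_option autoImplicit false

namespace Pool.Agent.Lib.MP_5d01ce_co

open Set Submodule

namespace Sys

variable {k : ℕ}

/-- three elements of `G` that are orthonormal for the pairing -/
structure Ortho (e1 e2 e3 : G k) : Prop where
  p11 : pr e1 e1 = 1
  p22 : pr e2 e2 = 1
  p33 : pr e3 e3 = 1
  p12 : pr e1 e2 = 0
  p13 : pr e1 e3 = 0
  p23 : pr e2 e3 = 0

theorem exists_ortho (hk : 2 ≤ k) : ∃ e1 e2 e3 : G k, Ortho e1 e2 e3 := by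
  let i0 : Fin k := ⟨0, by omega⟩
  let i1 : Fin k := ⟨1, by omega⟩
  have h01 : i0 ≠ i1 := by
    intro h
    have := congrArg Fin.val h
    simp [i0, i1] at this
  have hs : ∀ (x : W k) (i : Idx k), dot (Pi.single i 1) x = x i := fun x i => dot_single x i
  refine ⟨(Pi.single (Sum.inl i0) 1, 0), (Pi.single (Sum.inl i1) 1, 0),
    (Pi.single (Sum.inr i0) 1, 0), ?_, ?_, ?_, ?_, ?_, ?_⟩
  all_goals simp [pr, hs, Pi.single_apply, h01]

theorem fano_core (w0 : Fin k → ZMod 2) (s0 e1 e2 e3 : G k) (h : Ortho e1 e2 e3) :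
    let a : Gr k := Sum.inl (s0 + e1)
    let b : Gr k := Sum.inl (s0 + e2)
    let c : Gr k := Sum.inl (s0 + e3)
    let d1 : Gr k := Sum.inr (Sum.inl 0)
    let d2 : Gr k := Sum.inr (Sum.inl e1)
    let d3 : Gr k := Sum.inr (Sum.inl e2)
    let d4 : Gr k := Sum.inr (Sum.inl e3)
    (∀ T ∈ ({{d1, d2, d3}, {d4, d2, d3}, {a, d1, d3}, {b, d1, d2}, {c, d1, d2},
        {a, d1, d4}} : Set (Set (Gr k))),
      LinearIndepOn (ZMod 3) (vec w0) ((R1 k \ {a, b, c}) ∪ T)) ∧
    (∀ T ∈ ({{a, d1, d2}, {a, d3, d4}, {b, d1, d3}, {b, d2, d4}, {c, d1, d4},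
        {c, d2, d3}} : Set (Set (Gr k))),
      ¬ LinearIndepOn (ZMod 3) (vec w0) ((R1 k \ {a, b, c}) ∪ T)) := by
  intro a b c d1 d2 d3 d4
  have p21 : pr e2 e1 = 0 := by rw [pr_comm, h.p12]
  have p31 : pr e3 e1 = 0 := by rw [pr_comm, h.p13]
  have p32 : pr e3 e2 = 0 := by rw [pr_comm, h.p23]
  have hne : ∀ {x y : G k}, pr x x = 1 → pr x y = 0 → x ≠ y := by
    rintro x y h1 h2 rfl
    rw [h1] at h2
    exact one_ne_zero h2
  have n12 : e1 ≠ e2 := hne h.p11 h.p12
  have n13 : e1 ≠ e3 := hne h.p11 h.p13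
  have n23 : e2 ≠ e3 := hne h.p22 h.p23
  have n1 : e1 ≠ 0 := hne h.p11 (pr_zero _)
  have n2 : e2 ≠ 0 := hne h.p22 (pr_zero _)
  have n3 : e3 ≠ 0 := hne h.p33 (pr_zero _)
  have hab : s0 + e1 ≠ s0 + e2 := fun hh => n12 (add_left_cancel hh)
  have hac : s0 + e1 ≠ s0 + e3 := fun hh => n13 (add_left_cancel hh)
  have hbc : s0 + e2 ≠ s0 + e3 := fun hh => n23 (add_left_cancel hh)
  have mr : ∀ t : Gr k, t = a ∨ t = b ∨ t = c → t ∉ R1 k \ {a, b, c} := by
    rintro t ht ⟨-, h2⟩
    exact h2 (by simpa using ht)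
  have md : ∀ u : G k, (Sum.inr (Sum.inl u) : Gr k) ∉ R1 k \ {a, b, c} := by
    rintro u ⟨⟨s, hs⟩, -⟩
    cases hs
  -- values of the vectors
  have vr : ∀ s t : G k, vec w0 (Sum.inl s) t = if t = s then 1 else 0 := pt_apply
  have vd : ∀ u t : G k, vec w0 (Sum.inr (Sum.inl u)) (s0 + t) =
      sgn (pr s0 u) * sgn (pr t u) := by
    intro u t
    show sgn (pr (s0 + t) u) = _
    rw [pr_add_left, sgn_add]
  have key := li_iff_det w0 _ _ _ hab hac hbc
  constructor
  · intro T hT
    simp only [mem_insert_iff, mem_singleton_iff] at hT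
    rcases hT with rfl | rfl | rfl | rfl | rfl | rfl
    · rw [key d1 d2 d3 (by simp [d1, d2, n1.symm]) (by simp [d1, d3, n2.symm])
        (by simp [d2, d3, n12]) (md _) (md _) (md _), Matrix.det_fin_three]
      simp only [d1, d2, d3, Matrix.of_apply, Matrix.cons_val_zero, Matrix.cons_val_one,
        Matrix.cons_val, vd, h.p11, h.p22, h.p33, h.p12, h.p13, h.p23, p21, p31, p32, pr_zero,
        sgn_zero, sgn_one]
      generalize hA : sgn (pr s0 e1) = A
      generalize hB : sgn (pr s0 e2) = B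
      have hA' : A ≠ 0 := hA ▸ sgn_ne_zero _
      have hB' : B ≠ 0 := hB ▸ sgn_ne_zero _
      clear * - hA' hB'
      revert A B
      decide
    · rw [key d4 d2 d3 (by simp [d4, d2, n13.symm]) (by simp [d4, d3, n23.symm])
        (by simp [d2, d3, n12]) (md _) (md _) (md _), Matrix.det_fin_three]
      simp only [d4, d2, d3, Matrix.of_apply, Matrix.cons_val_zero, Matrix.cons_val_one,
        Matrix.cons_val, vd, h.p11, h.p22, h.p33, h.p12, h.p13, h.p23, p21, p31, p32, pr_zero,
        sgn_zero, sgn_one]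
      generalize hA : sgn (pr s0 e1) = A
      generalize hB : sgn (pr s0 e2) = B
      generalize hC : sgn (pr s0 e3) = C
      have hA' : A ≠ 0 := hA ▸ sgn_ne_zero _
      have hB' : B ≠ 0 := hB ▸ sgn_ne_zero _
      have hC' : C ≠ 0 := hC ▸ sgn_ne_zero _
      clear * - hA' hB' hC'
      revert A B C
      decide
    · rw [key a d1 d3 (by simp [a, d1]) (by simp [a, d3])
        (by simp [d1, d3, n2.symm]) (mr _ (by simp)) (md _) (md _), Matrix.det_fin_three]
      simp only [a, d1, d3, Matrix.of_apply, Matrix.cons_val_zero, Matrix.cons_val_one,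
        Matrix.cons_val, vd, vr, hab.symm, hac.symm, if_true, if_false,
        h.p11, h.p22, h.p33, h.p12, h.p13, h.p23, p21, p31, p32, pr_zero, sgn_zero, sgn_one]
      generalize hB : sgn (pr s0 e2) = B
      have hB' : B ≠ 0 := hB ▸ sgn_ne_zero _
      clear * - hB'
      revert B
      decide
    · rw [key b d1 d2 (by simp [b, d1]) (by simp [b, d2])
        (by simp [d1, d2, n1.symm]) (mr _ (by simp)) (md _) (md _), Matrix.det_fin_three]
      simp only [b, d1, d2, Matrix.of_apply, Matrix.cons_val_zero, Matrix.cons_val_one,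
        Matrix.cons_val, vd, vr, hab, hbc.symm, if_true, if_false,
        h.p11, h.p22, h.p33, h.p12, h.p13, h.p23, p21, p31, p32, pr_zero, sgn_zero, sgn_one]
      generalize hB : sgn (pr s0 e1) = B
      have hB' : B ≠ 0 := hB ▸ sgn_ne_zero _
      clear * - hB'
      revert B
      decide
    · rw [key c d1 d2 (by simp [c, d1]) (by simp [c, d2])
        (by simp [d1, d2, n1.symm]) (mr _ (by simp)) (md _) (md _), Matrix.det_fin_three]
      simp only [c, d1, d2, Matrix.of_apply, Matrix.cons_val_zero, Matrix.cons_val_one,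
        Matrix.cons_val, vd, vr, hac, hbc, if_true, if_false,
        h.p11, h.p22, h.p33, h.p12, h.p13, h.p23, p21, p31, p32, pr_zero, sgn_zero, sgn_one]
      generalize hB : sgn (pr s0 e1) = B
      have hB' : B ≠ 0 := hB ▸ sgn_ne_zero _
      clear * - hB'
      revert B
      decide
    · rw [key a d1 d4 (by simp [a, d1]) (by simp [a, d4])
        (by simp [d1, d4, n3.symm]) (mr _ (by simp)) (md _) (md _), Matrix.det_fin_three]
      simp only [a, d1, d4, Matrix.of_apply, Matrix.cons_val_zero, Matrix.cons_val_one,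
        Matrix.cons_val, vd, vr, hab.symm, hac.symm, if_true, if_false,
        h.p11, h.p22, h.p33, h.p12, h.p13, h.p23, p21, p31, p32, pr_zero, sgn_zero, sgn_one]
      generalize hB : sgn (pr s0 e3) = B
      have hB' : B ≠ 0 := hB ▸ sgn_ne_zero _
      clear * - hB'
      revert B
      decide
  · intro T hT
    simp only [mem_insert_iff, mem_singleton_iff] at hT
    rcases hT with rfl | rfl | rfl | rfl | rfl | rfl
    · rw [key a d1 d2 (by simp [a, d1]) (by simp [a, d2])
        (by simp [d1, d2, n1.symm]) (mr _ (by simp)) (md _) (md _), Matrix.det_fin_three,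
        not_ne_iff]
      simp only [a, d1, d2, Matrix.of_apply, Matrix.cons_val_zero, Matrix.cons_val_one,
        Matrix.cons_val, vd, vr, hab.symm, hac.symm, if_true, if_false,
        h.p11, h.p22, h.p33, h.p12, h.p13, h.p23, p21, p31, p32, pr_zero, sgn_zero, sgn_one]
      ring
    · rw [key a d3 d4 (by simp [a, d3]) (by simp [a, d4])
        (by simp [d3, d4, n23]) (mr _ (by simp)) (md _) (md _), Matrix.det_fin_three,
        not_ne_iff]
      simp only [a, d3, d4, Matrix.of_apply, Matrix.cons_val_zero, Matrix.cons_val_one,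
        Matrix.cons_val, vd, vr, hab.symm, hac.symm, if_true, if_false,
        h.p11, h.p22, h.p33, h.p12, h.p13, h.p23, p21, p31, p32, pr_zero, sgn_zero, sgn_one]
      ring
    · rw [key b d1 d3 (by simp [b, d1]) (by simp [b, d3])
        (by simp [d1, d3, n2.symm]) (mr _ (by simp)) (md _) (md _), Matrix.det_fin_three,
        not_ne_iff]
      simp only [b, d1, d3, Matrix.of_apply, Matrix.cons_val_zero, Matrix.cons_val_one,
        Matrix.cons_val, vd, vr, hab, hbc.symm, if_true, if_false,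
        h.p11, h.p22, h.p33, h.p12, h.p13, h.p23, p21, p31, p32, pr_zero, sgn_zero, sgn_one]
      ring
    · rw [key b d2 d4 (by simp [b, d2]) (by simp [b, d4])
        (by simp [d2, d4, n13]) (mr _ (by simp)) (md _) (md _), Matrix.det_fin_three,
        not_ne_iff]
      simp only [b, d2, d4, Matrix.of_apply, Matrix.cons_val_zero, Matrix.cons_val_one,
        Matrix.cons_val, vd, vr, hab, hbc.symm, if_true, if_false,
        h.p11, h.p22, h.p33, h.p12, h.p13, h.p23, p21, p31, p32, pr_zero, sgn_zero, sgn_one]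
      ring
    · rw [key c d1 d4 (by simp [c, d1]) (by simp [c, d4])
        (by simp [d1, d4, n3.symm]) (mr _ (by simp)) (md _) (md _), Matrix.det_fin_three,
        not_ne_iff]
      simp only [c, d1, d4, Matrix.of_apply, Matrix.cons_val_zero, Matrix.cons_val_one,
        Matrix.cons_val, vd, vr, hac, hbc, if_true, if_false,
        h.p11, h.p22, h.p33, h.p12, h.p13, h.p23, p21, p31, p32, pr_zero, sgn_zero, sgn_one]
      ring
    · rw [key c d2 d3 (by simp [c, d2]) (by simp [c, d3])
        (by simp [d2, d3, n12]) (mr _ (by simp)) (md _) (md _), Matrix.det_fin_three,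
        not_ne_iff]
      simp only [c, d2, d3, Matrix.of_apply, Matrix.cons_val_zero, Matrix.cons_val_one,
        Matrix.cons_val, vd, vr, hac, hbc, if_true, if_false,
        h.p11, h.p22, h.p33, h.p12, h.p13, h.p23, p21, p31, p32, pr_zero, sgn_zero, sgn_one]
      ring

end Sys

end Pool.Agent.Lib.MP_5d01ce_co
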