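import Pool.Agent.Lib.MP_5d01ce_co.Averaging

/-!
Small sets of elements of the concrete ternary matroids are independent, and the last `k`
elements are dependent.
-/

set_option autoImplicit false

namespace Pool.Agent.Lib.MP_5d01ce_co

open Set Submodule

namespace Sys

variable {k : ℕ}

theorem small_li (w0 : Fin k → ZMod 2) (hk : 2 ≤ k) (A B : Finset (G k))
    (hAB : A.card * B.card < 16 ^ k) :
    LinearIndepOn (ZMod 3) (vec w0) (chS B ∪ ptS A) := by
  obtain ⟨I, hI, hLI, hc⟩ := averaging w0 hk A B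
  have h1 : A.card + B.card ≤ I.ncard := by
    by_contra! hlt
    have : 16 ^ k * (I.ncard + 1) ≤ 16 ^ k * (A.card + B.card) := Nat.mul_le_mul_left _ hlt
    have h2 : 16 ^ k * (I.ncard + 1) = 16 ^ k * I.ncard + 16 ^ k := by ring
    omega
  have h2 : I = chS B ∪ ptS A := by
    apply eq_of_subset_of_ncard_le hI _ (toFinite _)
    rw [ncard_chS_union_ptS]
    omega
  rw [← h2]
  exact hLI

theorem exists_valid (hk : k = 2 ∨ 4 ≤ k) (i j : Fin k) (hij : i ≠ j) :
    ∃ w : Fin k → ZMod 2, ∑ l, sgn (w l) = 0 ∧ w i = 1 ∧ w j = 0 := by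
  classical
  obtain ⟨m, hm1, hm2, hm3⟩ : ∃ m, 1 ≤ m ∧ m ≤ k - 1 ∧ (k + m) % 3 = 0 := by
    rcases hk with rfl | hk
    · exact ⟨1, le_rfl, by norm_num, by norm_num⟩
    · have : k % 3 = 0 ∨ k % 3 = 1 ∨ k % 3 = 2 := by omega
      rcases this with h | h | h
      · exact ⟨3, by omega, by omega, by omega⟩
      · exact ⟨2, by omega, by omega, by omega⟩
      · exact ⟨1, by omega, by omega, by omega⟩
  obtain ⟨Q, hQ1, hQ2, hQc⟩ := Finset.exists_subsuperset_card_eq
    (s := {i}) (t := Finset.univ.erase j) (n := m)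
    (by
      intro x hx
      rw [Finset.mem_singleton] at hx
      subst hx
      exact Finset.mem_erase.2 ⟨hij, Finset.mem_univ _⟩)
    (by simpa using hm1) (by
      rw [Finset.card_erase_of_mem (Finset.mem_univ _), Finset.card_univ, Fintype.card_fin]
      exact hm2)
  refine ⟨fun l => if l ∈ Q then 1 else 0, ?_, ?_, ?_⟩
  · have h1 : ∀ l : Fin k, sgn (if l ∈ Q then 1 else 0) = 1 + (if l ∈ Q then 1 else 0) := by
      intro l
      split_ifs
      · decide
      · decide
    simp only [h1, Finset.sum_add_distrib]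
    rw [Finset.sum_const, Finset.card_univ, Fintype.card_fin, Finset.sum_ite_mem,
      Finset.univ_inter, Finset.sum_const, hQc]
    simp only [nsmul_eq_mul, mul_one]
    have h3 : ((k + m : ℕ) : ZMod 3) = 0 := by
      rw [ZMod.natCast_eq_zero_iff]
      exact Nat.dvd_of_mod_eq_zero hm3
    exact_mod_cast h3
  · have : i ∈ Q := hQ1 (Finset.mem_singleton_self i)
    simp [this]
  · have : j ∉ Q := fun h => (Finset.mem_erase.1 (hQ2 h)).1 rfl
    simp [this]

theorem gamma_const (hk : k = 2 ∨ 4 ≤ k) (γ : Fin k → ZMod 3)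
    (h : ∀ w : Fin k → ZMod 2, ∑ l, sgn (w l) = 0 → ∑ l, γ l * sgn (w l) = 0) (i j : Fin k) :
    γ i = γ j := by
  classical
  by_cases hij : i = j
  · rw [hij]
  obtain ⟨w, hw, hwi, hwj⟩ := exists_valid hk i j hij
  have h1 := h w hw
  have h2 := h (w ∘ Equiv.swap i j) (by
    rw [← hw]
    exact Equiv.sum_comp (Equiv.swap i j) (fun l => sgn (w l)))
  have e1 : ∑ l, γ l * sgn (w l) = γ i * sgn (w i) + (γ j * sgn (w j) +
      ∑ l ∈ (Finset.univ.erase i).erase j, γ l * sgn (w l)) := by
    rw [Finset.add_sum_erase _ (fun l => γ l * sgn (w l))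
      (Finset.mem_erase.2 ⟨Ne.symm hij, Finset.mem_univ j⟩),
      Finset.add_sum_erase _ (fun l => γ l * sgn (w l)) (Finset.mem_univ i)]
  have e2 : ∑ l, γ l * sgn ((w ∘ Equiv.swap i j) l) = γ i * sgn (w j) + (γ j * sgn (w i) +
      ∑ l ∈ (Finset.univ.erase i).erase j, γ l * sgn (w l)) := by
    rw [← Finset.add_sum_erase _ (fun l => γ l * sgn ((w ∘ Equiv.swap i j) l))
      (Finset.mem_univ i),
      ← Finset.add_sum_erase _ (fun l => γ l * sgn ((w ∘ Equiv.swap i j) l))
      (Finset.mem_erase.2 ⟨Ne.symm hij, Finset.mem_univ j⟩)]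
    simp only [Function.comp_apply, Equiv.swap_apply_left, Equiv.swap_apply_right]
    congr 2
    refine Finset.sum_congr rfl fun l hl => ?_
    rw [Finset.mem_erase, Finset.mem_erase] at hl
    rw [Equiv.swap_apply_of_ne_of_ne hl.2.1 hl.1]
  rw [e1, hwi, hwj] at h1
  rw [e2, hwi, hwj] at h2
  generalize (∑ l ∈ (Finset.univ.erase i).erase j, γ l * sgn (w l)) = R at h1 h2
  simp only [sgn_one, sgn_zero] at h1 h2
  generalize γ i = a at *
  generalize γ j = b at *
  clear * - h1 h2
  revert a b R
  decide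

theorem exists_good (hk : k = 2 ∨ 4 ≤ k) (γ : Fin k → ZMod 3) (i j : Fin k) (hi : γ i ≠ 0)
    (hj : γ j = 0) : ∃ w : Fin k → ZMod 2, ∑ l, sgn (w l) = 0 ∧ ∑ l, γ l * sgn (w l) ≠ 0 := by
  by_contra! hcon
  apply hi
  rw [gamma_const hk γ hcon i j, hj]

/-- the row argument -/
theorem row (w0 : Fin k → ZMod 2) (α β : G k → ZMod 3) (γ : Fin k → ZMod 3)
    (hrel : ∑ s, α s • pt s + (∑ u, β u • chi u + ∑ i, γ i • bent w0 i) = 0) (y : W k)
    (hA : ∀ s : G k, α s ≠ 0 → s.2 ≠ y) (hB : ∀ u : G k, β u ≠ 0 → u.1 ≠ y) :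
    ∑ i, γ i * sgn (sel w0 y i) = 0 := by
  have h1 : ∀ x : W k, (∑ u, β u * sgn (pr (x, y) u)) +
      sgn (dot x y) * ∑ i, γ i * sgn (sel w0 y i) = 0 := by
    intro x
    have h2 := congrFun hrel (x, y)
    simp only [Pi.add_apply, Finset.sum_apply, Pi.smul_apply, smul_eq_mul, Pi.zero_apply,
      chi, bent] at h2
    have h3 : ∑ s, α s * pt s (x, y) = 0 := by
      apply Finset.sum_eq_zero
      intro s _
      by_cases hs : α s = 0
      · rw [hs, zero_mul]
      · rw [pt_apply, if_neg, mul_zero]
        intro he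
        exact hA s hs (by rw [← he])
    rw [h3, zero_add] at h2
    rw [Finset.mul_sum, ← h2]
    congr 1
    exact Finset.sum_congr rfl fun i _ => by ring
  have h4 : ∑ x : W k, sgn (dot x y) * ((∑ u, β u * sgn (pr (x, y) u)) +
      sgn (dot x y) * ∑ i, γ i * sgn (sel w0 y i)) = 0 := by
    apply Finset.sum_eq_zero
    intro x _
    rw [h1 x, mul_zero]
  simp only [mul_add, Finset.sum_add_distrib, ← mul_assoc, sgn_mul_self, one_mul,
    Finset.sum_const, Finset.card_univ, nsmul_eq_mul] at h4
  rw [card_W, one_mul] at h4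
  have h5 : ∑ x : W k, sgn (dot x y) * ∑ u, β u * sgn (pr (x, y) u) = 0 := by
    simp only [Finset.mul_sum]
    rw [Finset.sum_comm]
    apply Finset.sum_eq_zero
    intro u _
    by_cases hu : β u = 0
    · simp [hu]
    · have h6 : ∀ x : W k, sgn (dot x y) * (β u * sgn (pr (x, y) u)) =
          β u * sgn (dot y u.2) * sgn (dot x (y + u.1)) := by
        intro x
        simp only [pr]
        rw [sgn_add, dot_add_right, sgn_add]
        ring
      simp only [h6]
      rw [← Finset.mul_sum, sum_sgn_dot, if_neg, mul_zero]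
      rw [add_eq_zero_W]
      exact fun he => hB u hu he.symm
  rw [h5, zero_add] at h4
  exact h4

theorem girth (w0 : Fin k → ZMod 2) (hk : k = 2 ∨ 4 ≤ k) (S : Set (Gr k)) (hS : S.ncard < k) :
    LinearIndepOn (ZMod 3) (vec w0) S := by
  classical
  have hk2 : 2 ≤ k := by omega
  set A : Finset (G k) := Finset.univ.filter (fun s => (Sum.inl s : Gr k) ∈ S) with hA
  set B : Finset (G k) := Finset.univ.filter (fun u => (Sum.inr (Sum.inl u) : Gr k) ∈ S) with hB
  set Q : Finset (Fin k) := Finset.univ.filter (fun i => (Sum.inr (Sum.inr i) : Gr k) ∈ S) with hQ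
  have inj3 : Function.Injective (fun i : Fin k => (Sum.inr (Sum.inr i) : Gr k)) := by
    intro a b h
    simpa using h
  have hSeq : S = (chS B ∪ ptS A) ∪ (fun i : Fin k => (Sum.inr (Sum.inr i) : Gr k)) '' Q := by
    ext x
    rcases x with s | u | i
    · simp [hA, chS, ptS]
    · simp [hB, chS, ptS]
    · simp [hQ, chS, ptS]
  have hcard : B.card + A.card + Q.card < k := by
    refine lt_of_le_of_lt ?_ hS
    rw [hSeq, ncard_union_eq, ncard_chS_union_ptS, ncard_image_of_injective _ inj3,
      ncard_coe_finset]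
    · rw [disjoint_left]
      rintro _ (⟨u, -, rfl⟩ | ⟨u, -, rfl⟩) ⟨s, -, hs⟩
      · cases hs
      · cases hs
  have hAB : A.card * B.card < 16 ^ k := by
    calc A.card * B.card ≤ k * k := Nat.mul_le_mul (by omega) (by omega)
      _ < 2 ^ k * 2 ^ k := Nat.mul_lt_mul'' Nat.lt_two_pow_self Nat.lt_two_pow_self
      _ = 4 ^ k := by rw [← mul_pow]; norm_num
      _ ≤ 16 ^ k := Nat.pow_le_pow_left (by norm_num) k
  have hfin : S = ((Finset.univ.filter (fun x => x ∈ S) : Finset (Gr k)) : Set (Gr k)) := by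
    ext x
    simp
  rw [hfin, linearIndepOn_finset_iff]
  intro f hf x hx
  set c : Gr k → ZMod 3 := fun x => if x ∈ S then f x else 0 with hc
  have hsum : ∑ x : Gr k, c x • vec w0 x = 0 := by
    rw [← hf, Finset.sum_filter]
    refine Finset.sum_congr rfl fun x _ => ?_
    simp only [hc]
    split_ifs
    · rfl
    · rw [zero_smul]
  have hrel : ∑ s, c (Sum.inl s) • pt s + (∑ u, c (Sum.inr (Sum.inl u)) • chi u +
      ∑ i, c (Sum.inr (Sum.inr i)) • bent w0 i) = 0 := by
    rw [Fintype.sum_sum_type, Fintype.sum_sum_type] at hsum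
    exact hsum
  by_cases hγ : ∀ i : Fin k, c (Sum.inr (Sum.inr i)) = 0
  · have hli := small_li w0 hk2 A B hAB
    have hfin2 : chS B ∪ ptS A = ((Finset.univ.filter (fun x => x ∈ chS B ∪ ptS A) :
        Finset (Gr k)) : Set (Gr k)) := by
      ext x
      simp
    rw [hfin2, linearIndepOn_finset_iff] at hli
    have h1 := hli f (by
      rw [← hsum, Finset.sum_filter]
      refine Finset.sum_congr rfl fun x _ => ?_
      split_ifs with hx
      · have : x ∈ S := by
          rw [hSeq]
          exact Or.inl hx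
        simp [hc, this]
      · rcases x with s | u | i
        · have : (Sum.inl s : Gr k) ∉ S := by
            intro hs
            apply hx
            right
            exact ⟨s, by simp [hA, hs], rfl⟩
          simp [hc, this]
        · have : (Sum.inr (Sum.inl u) : Gr k) ∉ S := by
            intro hs
            apply hx
            left
            exact ⟨u, by simp [hB, hs], rfl⟩
          simp [hc, this]
        · rw [hγ, zero_smul])
    have hxS : x ∈ S := by simpa using hx
    by_cases hx2 : x ∈ chS B ∪ ptS A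
    · exact h1 x (Finset.mem_filter.2 ⟨Finset.mem_univ _, hx2⟩)
    · rw [hSeq] at hxS
      rcases hxS with hxS | ⟨i, hi, rfl⟩
      · exact absurd hxS hx2
      · have h2 := hγ i
        have h3 : (Sum.inr (Sum.inr i) : Gr k) ∈ S := by
          rw [hSeq]
          exact Or.inr ⟨i, hi, rfl⟩
        simpa [hc, h3] using h2
  · exfalso
    push Not at hγ
    obtain ⟨i, hi⟩ := hγ
    obtain ⟨j, hj⟩ : ∃ j : Fin k, c (Sum.inr (Sum.inr j)) = 0 := by
      obtain ⟨j, hj⟩ : ∃ j : Fin k, j ∉ Q := by
        by_contra! hcon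
        have : Q = Finset.univ := Finset.eq_univ_iff_forall.2 hcon
        rw [this, Finset.card_univ, Fintype.card_fin] at hcard
        omega
      refine ⟨j, ?_⟩
      have : (Sum.inr (Sum.inr j) : Gr k) ∉ S := by simpa [hQ] using hj
      simp [hc, this]
    obtain ⟨w, hw, hw2⟩ := exists_good hk (fun i => c (Sum.inr (Sum.inr i))) i j hi hj
    have key : ∀ z : Fin k → ZMod 2, (Sum.elim w z : W k) ∈ A.image Prod.snd ∪ B.image Prod.fst := by
      intro z
      by_contra hcon
      rw [Finset.mem_union, not_or, Finset.mem_image, Finset.mem_image] at hcon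
      push Not at hcon
      have h1 := row w0 _ _ _ hrel (Sum.elim w z) (by
        intro s hs
        apply hcon.1 s
        simp only [hA, Finset.mem_filter, Finset.mem_univ, true_and]
        by_contra hn
        simp [hc, hn] at hs) (by
        intro s hs
        apply hcon.2 s
        simp only [hB, Finset.mem_filter, Finset.mem_univ, true_and]
        by_contra hn
        simp [hc, hn] at hs)
      apply hw2
      rw [← h1]
      have : sel w0 (Sum.elim w z : W k) = w := by
        unfold sel
        rw [if_pos]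
        · rfl
        · exact hw
      rw [this]
    have hle : Fintype.card (Fin k → ZMod 2) ≤ (A.image Prod.snd ∪ B.image Prod.fst).card := by
      rw [← Finset.card_univ]
      apply Finset.card_le_card_of_injOn (fun z : Fin k → ZMod 2 => (Sum.elim w z : W k))
      · intro z _
        exact key z
      · intro z _ z' _ hzz
        funext i
        exact congrFun hzz (Sum.inr i)
    have h5 : (A.image Prod.snd ∪ B.image Prod.fst).card ≤ A.card + B.card :=
      (Finset.card_union_le _ _).trans (Nat.add_le_add Finset.card_image_le Finset.card_image_le)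
    simp only [Fintype.card_fun, ZMod.card, Fintype.card_fin] at hle
    have : k < 2 ^ k := Nat.lt_two_pow_self
    omega

/-- the last `k` elements -/
def PP (k : ℕ) : Set (Gr k) := range (fun i => Sum.inr (Sum.inr i))

theorem PP_dep (w0 : Fin k → ZMod 2) (hw0 : ∑ i, sgn (w0 i) = 0) (hk : 2 ≤ k) :
    ¬ LinearIndepOn (ZMod 3) (vec w0) (PP k) := by
  classical
  intro hLI
  have inj3 : Function.Injective (fun i : Fin k => (Sum.inr (Sum.inr i) : Gr k)) := by
    intro a b h
    simpa using h
  rw [PP, linearIndepOn_range_iff inj3] at hLI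
  have h1 := Fintype.linearIndependent_iff.1 hLI (fun _ => 1) (by
    ext s
    simp only [Function.comp_apply, vec, one_smul, Finset.sum_apply, Pi.zero_apply, bent]
    rw [← Finset.mul_sum, sel_sum hw0, mul_zero]) ⟨0, by omega⟩
  exact one_ne_zero h1

theorem PP_ncard : (PP k).ncard = k := by
  have inj3 : Function.Injective (fun i : Fin k => (Sum.inr (Sum.inr i) : Gr k)) := by
    intro a b h
    simpa using h
  rw [PP, ← image_univ, ncard_image_of_injective _ inj3, ncard_univ, Nat.card_eq_fintype_card,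
    Fintype.card_fin]

end Sys

end Pool.Agent.Lib.MP_5d01ce_co
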