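import Pool.Agent.Lib.MP_5d01ce_co.Tight

/-!
Minors of tightened matroids: exclusion of `U_{2,5}`, and comparison of two tightened
matroids.
-/

set_option autoImplicit false

namespace Pool.Agent.Lib.MP_5d01ce_co

open Set Submodule

/-- Independent sets of a minor. -/
theorem exists_indep_of_isMinor {α : Type} {M' M : Matroid α} (h : M' ≤m M) :
    ∃ I, M.Indep I ∧ Disjoint I M'.E ∧ ∀ J ⊆ M'.E, (M'.Indep J ↔ M.Indep (J ∪ I)) := by
  obtain ⟨C, D, rfl⟩ := h
  obtain ⟨I, hI⟩ := M.exists_isBasis' C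
  refine ⟨I, hI.indep, ?_, ?_⟩
  · rw [disjoint_left]
    intro x hx hxE
    simp only [Matroid.delete_ground, Matroid.contract_ground, mem_sdiff] at hxE
    exact hxE.1.2 (hI.subset hx)
  · intro J hJ
    rw [Matroid.delete_indep_iff, hI.contract_indep_iff]
    simp only [Matroid.delete_ground, Matroid.contract_ground] at hJ
    have h1 : Disjoint C J := by
      rw [disjoint_left]
      intro x hx hxJ
      exact (hJ hxJ).1.2 hx
    have h2 : Disjoint J D := by
      rw [disjoint_left]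
      intro x hx hxD
      exact (hJ hx).2 hxD
    simp [h1, h2]

section Line

variable {Q : Type} [AddCommGroup Q] [Module (ZMod 3) Q]

/-- Over `GF(3)` there are no five pairwise independent vectors of which no three are
independent. -/
theorem no_five (a : Fin 5 → Q)
    (hpair : ∀ i j, i ≠ j → LinearIndependent (ZMod 3) ![a i, a j])
    (htrip : ∀ i j k, i ≠ j → i ≠ k → j ≠ k → ¬ LinearIndependent (ZMod 3) ![a i, a j, a k]) :
    False := by
  have key : ∀ k, k ≠ 0 → k ≠ 1 → ∃ c : ZMod 3 × ZMod 3, c.1 ≠ 0 ∧ c.2 ≠ 0 ∧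
      a k = c.1 • a 0 + c.2 • a 1 := by
    intro k h0 h1
    have h := htrip k 0 1 h0 h1 (by decide)
    have hp := hpair 0 1 (by decide)
    have : a k ∈ span (ZMod 3) (range ![a 0, a 1]) := by
      by_contra hns
      exact h (linearIndependent_finCons.2 ⟨hp, hns⟩)
    have hr : range ![a 0, a 1] = {a 0, a 1} := by simp [Set.pair_comm]
    rw [hr, mem_span_pair] at this
    obtain ⟨x, y, hxy⟩ := this
    refine ⟨(x, y), ?_, ?_, hxy.symm⟩
    · rintro rfl
      have := hpair k 1 h1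
      rw [LinearIndependent.pair_iff] at this
      have h2 := this 1 (-y) (by rw [← hxy]; simp)
      simp at h2
    · rintro rfl
      have := hpair k 0 h0
      rw [LinearIndependent.pair_iff] at this
      have h2 := this 1 (-x) (by rw [← hxy]; simp)
      simp at h2
  obtain ⟨⟨x2, y2⟩, hx2, hy2, h2⟩ := key 2 (by decide) (by decide)
  obtain ⟨⟨x3, y3⟩, hx3, hy3, h3⟩ := key 3 (by decide) (by decide)
  obtain ⟨⟨x4, y4⟩, hx4, hy4, h4⟩ := key 4 (by decide) (by decide)
  simp only at hx2 hy2 hx3 hy3 hx4 hy4 h2 h3 h4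
  -- two of the three are parallel
  have h23 := hpair 2 3 (by decide)
  have h24 := hpair 2 4 (by decide)
  have h34 := hpair 3 4 (by decide)
  rw [LinearIndependent.pair_iff, h2, h3] at h23
  rw [LinearIndependent.pair_iff, h2, h4] at h24
  rw [LinearIndependent.pair_iff, h3, h4] at h34
  have e23 : x3 * y2 - x2 * y3 ≠ 0 := by
    intro h0
    have := h23 x3 (-x2) (by
      have : x3 • (x2 • a 0 + y2 • a 1) + -x2 • (x3 • a 0 + y3 • a 1)
        = (x3 * y2 - x2 * y3) • a 1 := by module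
      rw [this, h0, zero_smul])
    exact hx3 this.1
  have e24 : x4 * y2 - x2 * y4 ≠ 0 := by
    intro h0
    have := h24 x4 (-x2) (by
      have : x4 • (x2 • a 0 + y2 • a 1) + -x2 • (x4 • a 0 + y4 • a 1)
        = (x4 * y2 - x2 * y4) • a 1 := by module
      rw [this, h0, zero_smul])
    exact hx4 this.1
  have e34 : x4 * y3 - x3 * y4 ≠ 0 := by
    intro h0
    have := h34 x4 (-x3) (by
      have : x4 • (x3 • a 0 + y3 • a 1) + -x3 • (x4 • a 0 + y4 • a 1)
        = (x4 * y3 - x3 * y4) • a 1 := by module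
      rw [this, h0, zero_smul])
    exact hx4 this.1
  clear h23 h24 h34 h2 h3 h4 key htrip hpair
  revert x2 y2 x3 y3 x4 y4
  decide

/-- The Fano configuration is not representable over `GF(3)`. -/
theorem no_fano (r1 r2 r3 d1 d2 d3 d4 : Q)
    (hd : LinearIndependent (ZMod 3) ![d1, d2, d3])
    (hd' : LinearIndependent (ZMod 3) ![d4, d2, d3])
    (hr1 : LinearIndependent (ZMod 3) ![r1, d1, d3])
    (hr2 : LinearIndependent (ZMod 3) ![r2, d1, d2])
    (hr3 : LinearIndependent (ZMod 3) ![r3, d1, d2])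
    (h34 : LinearIndependent (ZMod 3) ![d3, d4])
    (h24 : LinearIndependent (ZMod 3) ![d2, d4])
    (h14 : LinearIndependent (ZMod 3) ![d1, d4])
    (a1 : ¬ LinearIndependent (ZMod 3) ![r1, d1, d2])
    (b1 : ¬ LinearIndependent (ZMod 3) ![r1, d3, d4])
    (a2 : ¬ LinearIndependent (ZMod 3) ![r2, d1, d3])
    (b2 : ¬ LinearIndependent (ZMod 3) ![r2, d2, d4])
    (a3 : ¬ LinearIndependent (ZMod 3) ![r3, d1, d4])
    (b3 : ¬ LinearIndependent (ZMod 3) ![r3, d2, d3])
    (hdep : ¬ LinearIndependent (ZMod 3) ![r1, r2, r3]) : False := by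
  have hext : ∀ r x y : Q, LinearIndependent (ZMod 3) ![x, y] →
      ¬ LinearIndependent (ZMod 3) ![r, x, y] → ∃ c e : ZMod 3, r = c • x + e • y := by
    intro r x y hxy h
    have : r ∈ span (ZMod 3) (range ![x, y]) := by
      by_contra hns
      exact h (linearIndependent_finCons.2 ⟨hxy, hns⟩)
    have hr : range ![x, y] = {x, y} := by simp [Set.pair_comm]
    rw [hr, mem_span_pair] at this
    obtain ⟨c, e, hce⟩ := this
    exact ⟨c, e, hce.symm⟩
  have h3 : ∀ x y z : Q, LinearIndependent (ZMod 3) ![x, y, z] → ∀ a b c : ZMod 3,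
      a • x + b • y + c • z = 0 → a = 0 ∧ b = 0 ∧ c = 0 := by
    intro x y z h a b c habc
    have := Fintype.linearIndependent_iff.1 h ![a, b, c] (by
      simp [Fin.sum_univ_three, habc])
    exact ⟨this 0, this 1, this 2⟩
  have hd12 : LinearIndependent (ZMod 3) ![d1, d2] := by
    rw [LinearIndependent.pair_iff]
    intro s t hst
    have := h3 _ _ _ hd s t 0 (by simpa using hst)
    exact ⟨this.1, this.2.1⟩
  have hd13 : LinearIndependent (ZMod 3) ![d1, d3] := by
    rw [LinearIndependent.pair_iff]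
    intro s t hst
    have := h3 _ _ _ hd s 0 t (by simpa using hst)
    exact ⟨this.1, this.2.2⟩
  have hd23 : LinearIndependent (ZMod 3) ![d2, d3] := by
    rw [LinearIndependent.pair_iff]
    intro s t hst
    have := h3 _ _ _ hd 0 s t (by simpa using hst)
    exact ⟨this.2.1, this.2.2⟩
  obtain ⟨p1, p2, e1⟩ := hext _ _ _ hd12 a1
  obtain ⟨g3, g4, f1⟩ := hext _ _ _ h34 b1
  obtain ⟨q1, q3, e2⟩ := hext _ _ _ hd13 a2
  obtain ⟨g2', g4', f2⟩ := hext _ _ _ h24 b2
  obtain ⟨g1'', g4'', f3⟩ := hext _ _ _ h14 a3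
  obtain ⟨s2, s3, e3⟩ := hext _ _ _ hd23 b3
  -- `g4 ≠ 0`
  have hg4 : g4 ≠ 0 := by
    rintro rfl
    have := h3 _ _ _ hr1 1 0 (-g3) (by rw [f1]; module)
    exact one_ne_zero this.1
  -- `d4` in terms of `d1, d2, d3`
  obtain ⟨w1, w2, w3, hw⟩ : ∃ w1 w2 w3 : ZMod 3, d4 = w1 • d1 + w2 • d2 + w3 • d3 := by
    refine ⟨g4⁻¹ * p1, g4⁻¹ * p2, - (g4⁻¹ * g3), ?_⟩
    have h : g4 • d4 = p1 • d1 + p2 • d2 - g3 • d3 := by
      have : g3 • d3 + g4 • d4 = p1 • d1 + p2 • d2 := by rw [← f1, e1]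
      rw [← this]
      module
    have h' : d4 = g4⁻¹ • (g4 • d4) := by
      have : Fact (Nat.Prime 3) := ⟨by norm_num⟩
      rw [smul_smul, inv_mul_cancel₀ hg4, one_smul]
    rw [h', h]
    module
  rw [hw] at f1 f2 f3
  have k1 := h3 _ _ _ hd (p1 - g4 * w1) (p2 - g4 * w2) (- (g3 + g4 * w3)) (by
    have : (p1 - g4 * w1) • d1 + (p2 - g4 * w2) • d2 + (-(g3 + g4 * w3)) • d3
      = (p1 • d1 + p2 • d2) - (g3 • d3 + g4 • (w1 • d1 + w2 • d2 + w3 • d3)) := by module
    rw [this, ← e1, ← f1, sub_self])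
  have k2 := h3 _ _ _ hd (q1 - g4' * w1) (- (g2' + g4' * w2)) (q3 - g4' * w3) (by
    have : (q1 - g4' * w1) • d1 + (-(g2' + g4' * w2)) • d2 + (q3 - g4' * w3) • d3
      = (q1 • d1 + q3 • d3) - (g2' • d2 + g4' • (w1 • d1 + w2 • d2 + w3 • d3)) := by module
    rw [this, ← e2, ← f2, sub_self])
  have k3 := h3 _ _ _ hd (- (g1'' + g4'' * w1)) (s2 - g4'' * w2) (s3 - g4'' * w3) (by
    have : (-(g1'' + g4'' * w1)) • d1 + (s2 - g4'' * w2) • d2 + (s3 - g4'' * w3) • d3
      = (s2 • d2 + s3 • d3) - (g1'' • d1 + g4'' • (w1 • d1 + w2 • d2 + w3 • d3)) := by module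
    rw [this, ← e3, ← f3, sub_self])
  -- nonvanishing of the vectors
  have n1 : p2 ≠ 0 := by
    rintro rfl
    have := h3 _ _ _ hr1 1 (-p1) 0 (by rw [e1]; module)
    exact one_ne_zero this.1
  have n2 : q3 ≠ 0 := by
    rintro rfl
    have := h3 _ _ _ hr2 1 (-q1) 0 (by rw [e2]; module)
    exact one_ne_zero this.1
  have n3 : s3 ≠ 0 := by
    rintro rfl
    have := h3 _ _ _ hr3 1 0 (-s2) (by rw [e3]; module)
    exact one_ne_zero this.1
  apply hdep
  rw [Fintype.linearIndependent_iff]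
  intro c hc
  simp only [Fin.sum_univ_three, Matrix.cons_val_zero, Matrix.cons_val_one,
    Matrix.cons_val] at hc
  have hcc := h3 _ _ _ hd (c 0 * p1 + c 1 * q1) (c 0 * p2 + c 2 * s2) (c 1 * q3 + c 2 * s3) (by
    have : (c 0 * p1 + c 1 * q1) • d1 + (c 0 * p2 + c 2 * s2) • d2 + (c 1 * q3 + c 2 * s3) • d3
      = c 0 • (p1 • d1 + p2 • d2) + c 1 • (q1 • d1 + q3 • d3) + c 2 • (s2 • d2 + s3 • d3) := by
      module
    rw [this, ← e1, ← e2, ← e3, hc])
  have hw1 : w1 ≠ 0 := by
    rintro rfl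
    have := h3 _ _ _ hd' 1 (-w2) (-w3) (by rw [hw]; module)
    exact one_ne_zero this.1
  have hp1 : p1 = g4 * w1 := sub_eq_zero.1 k1.1
  have hp2 : p2 = g4 * w2 := sub_eq_zero.1 k1.2.1
  have hq1 : q1 = g4' * w1 := sub_eq_zero.1 k2.1
  have hq3 : q3 = g4' * w3 := sub_eq_zero.1 k2.2.2
  have hs2 : s2 = g4'' * w2 := sub_eq_zero.1 k3.2.1
  have hs3 : s3 = g4'' * w3 := sub_eq_zero.1 k3.2.2
  have hw2 : w2 ≠ 0 := by
    rintro rfl
    exact n1 (by rw [hp2, mul_zero])
  have hw3 : w3 ≠ 0 := by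
    rintro rfl
    exact n2 (by rw [hq3, mul_zero])
  have hg4' : g4' ≠ 0 := by
    rintro rfl
    exact n2 (by rw [hq3, zero_mul])
  have hg4'' : g4'' ≠ 0 := by
    rintro rfl
    exact n3 (by rw [hs3, zero_mul])
  have hABC : ∀ A B C : ZMod 3, A + B = 0 → A + C = 0 → B + C = 0 → A = 0 ∧ B = 0 ∧ C = 0 := by
    decide
  have : Fact (Nat.Prime 3) := ⟨by norm_num⟩
  have m1 : (c 0 * g4 + c 1 * g4') * w1 = 0 := by
    rw [← hcc.1, hp1, hq1]; ring
  have m2 : (c 0 * g4 + c 2 * g4'') * w2 = 0 := by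
    rw [← hcc.2.1, hp2, hs2]; ring
  have m3 : (c 1 * g4' + c 2 * g4'') * w3 = 0 := by
    rw [← hcc.2.2, hq3, hs3]; ring
  have m1' := (mul_eq_zero.1 m1).resolve_right hw1
  have m2' := (mul_eq_zero.1 m2).resolve_right hw2
  have m3' := (mul_eq_zero.1 m3).resolve_right hw3
  obtain ⟨z0, z1, z2⟩ := hABC _ _ _ m1' m2' m3'
  have c0 := (mul_eq_zero.1 z0).resolve_right hg4
  have c1 := (mul_eq_zero.1 z1).resolve_right hg4'
  have c2 := (mul_eq_zero.1 z2).resolve_right hg4''
  intro i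
  fin_cases i
  · exact c0
  · exact c1
  · exact c2

end Line

section Compare

theorem linearIndepOn_pair_iff' {F V α : Type} [Field F] [AddCommGroup V] [Module F V]
    (f : α → V) {x y : α} (hxy : x ≠ y) :
    LinearIndepOn F f {x, y} ↔ LinearIndependent F ![f x, f y] := by
  have hinj : Function.Injective ![x, y] := by
    intro i j hij
    fin_cases i <;> fin_cases j <;> simp_all
  have hr : ({x, y} : Set α) = range ![x, y] := by simp [Set.pair_comm]
  rw [hr, linearIndepOn_range_iff hinj]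
  have : f ∘ ![x, y] = ![f x, f y] := by
    ext i
    fin_cases i <;> rfl
  rw [this]

theorem linearIndepOn_triple_iff {F V α : Type} [Field F] [AddCommGroup V] [Module F V]
    (f : α → V) {x y z : α} (hxy : x ≠ y) (hxz : x ≠ z) (hyz : y ≠ z) :
    LinearIndepOn F f {x, y, z} ↔ LinearIndependent F ![f x, f y, f z] := by
  have hinj : Function.Injective ![x, y, z] := by
    intro i j hij
    fin_cases i <;> fin_cases j <;> simp_all
  have hr : ({x, y, z} : Set α) = range ![x, y, z] := by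
    ext t
    simp only [mem_insert_iff, mem_singleton_iff, mem_range, Fin.exists_fin_succ,
      Matrix.cons_val_zero, Matrix.cons_val_succ]
    constructor
    · rintro (rfl | rfl | rfl) <;> simp
    · rintro (h | h | h | h)
      · exact Or.inl h.symm
      · exact Or.inr (Or.inl h.symm)
      · exact Or.inr (Or.inr h.symm)
      · exact absurd h (by rintro ⟨i, -⟩; exact i.elim0)
  rw [hr, linearIndepOn_range_iff hinj]
  have : f ∘ ![x, y, z] = ![f x, f y, f z] := by
    ext i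
    fin_cases i <;> rfl
  rw [this]

instance : Fact (Nat.Prime 3) := ⟨by norm_num⟩

variable {α V : Type} [AddCommGroup V] [Module (ZMod 3) V]
  {v : α → V} {S₁ S₂ : Set α} {n : ℕ}

/-- A tightened ternary matroid has no minor containing five pairwise independent elements
of which no three are independent. -/
theorem TightData.no_U25 (h : TightData (ZMod 3) v S₁ S₂ n) {M' : Matroid α}
    (hM : M' ≤m h.matroid) (a : Fin 5 → α) (ha : Function.Injective a) (haE : ∀ i, a i ∈ M'.E)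
    (hpair : ∀ i j, i ≠ j → M'.Indep {a i, a j})
    (htrip : ∀ i j k, i ≠ j → i ≠ k → j ≠ k → ¬ M'.Indep {a i, a j, a k}) : False := by
  obtain ⟨I, hI, hIE, hiff⟩ := exists_indep_of_isMinor hM
  rw [h.matroid_indep_iff] at hI
  have haI : ∀ i, a i ∉ I := fun i hi => disjoint_left.1 hIE hi (haE i)
  have hdisj : ∀ J ⊆ range a, Disjoint I J := by
    intro J hJ
    rw [disjoint_left]
    intro x hxI hxJ
    obtain ⟨i, rfl⟩ := hJ hxJ
    exact haI i hxI
  have hsubE : ∀ J ⊆ range a, J ⊆ M'.E := by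
    intro J hJ x hx
    obtain ⟨i, rfl⟩ := hJ hx
    exact haE i
  -- the key statement on triples
  have htrip' : ∀ i j k, i ≠ j → i ≠ k → j ≠ k →
      ¬ LinearIndepOn (ZMod 3) v ({a i, a j, a k} ∪ I) := by
    intro i j k hij hik hjk hLI
    have hsub : ({a i, a j, a k} : Set α) ⊆ range a := by
      rintro x (rfl | rfl | rfl) <;> exact mem_range_self _
    have hnot := htrip i j k hij hik hjk
    rw [hiff _ (hsubE _ hsub), h.matroid_indep_iff] at hnot
    have key : ∀ S T : Set α, TightData (ZMod 3) v S T n → {a i, a j, a k} ∪ I = S →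
        ∃ l, l ≠ j ∧ l ≠ k ∧ TInd (ZMod 3) v S T ({a l, a j, a k} ∪ I) := by
      intro S T hST hS
      obtain ⟨l, hli, hlj, hlk⟩ : ∃ l : Fin 5, l ≠ i ∧ l ≠ j ∧ l ≠ k := by
        clear * -
        revert i j k
        decide
      have hlS : a l ∉ S := by
        rw [← hS]
        rintro ((h1 | h1 | h1) | h1)
        · exact hli (ha h1)
        · exact hlj (ha h1)
        · exact hlk (ha h1)
        · exact haI l h1
      have hiS : a i ∈ S := by
        rw [← hS]
        exact Or.inl (Or.inl rfl)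
      refine ⟨l, hlj, hlk, ?_⟩
      have := hST.tind_swap₁ hiS hlS
      convert this using 1
      rw [← hS]
      ext x
      simp only [mem_union, mem_insert_iff, mem_singleton_iff, mem_sdiff]
      constructor
      · rintro ((h1 | h1 | h1) | h1)
        · exact Or.inl h1
        · exact Or.inr ⟨Or.inl (Or.inr (Or.inl h1)), fun h2 => hij (ha (h2.symm.trans h1))⟩
        · exact Or.inr ⟨Or.inl (Or.inr (Or.inr h1)), fun h2 => hik (ha (h2.symm.trans h1))⟩
        · exact Or.inr ⟨Or.inr h1, fun h2 => haI i (h2 ▸ h1)⟩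
      · rintro (h1 | ⟨(h1 | h1 | h1) | h1, h2⟩)
        · exact Or.inl (Or.inl h1)
        · exact absurd h1 h2
        · exact Or.inl (Or.inr (Or.inl h1))
        · exact Or.inl (Or.inr (Or.inr h1))
        · exact Or.inr h1
    by_cases h1 : {a i, a j, a k} ∪ I = S₁
    · obtain ⟨l, hlj, hlk, hT⟩ := key S₁ S₂ h h1
      apply htrip l j k hlj hlk hjk
      rw [hiff _ (hsubE _ (by rintro x (rfl | rfl | rfl) <;> exact mem_range_self _)),
        h.matroid_indep_iff]
      exact hT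
    by_cases h2 : {a i, a j, a k} ∪ I = S₂
    · obtain ⟨l, hlj, hlk, hT⟩ := key S₂ S₁ h.symm h2
      apply htrip l j k hlj hlk hjk
      rw [hiff _ (hsubE _ (by rintro x (rfl | rfl | rfl) <;> exact mem_range_self _)),
        h.matroid_indep_iff]
      exact ⟨hT.1, hT.2.2, hT.2.1⟩
    exact hnot ⟨hLI, h1, h2⟩
  -- now work in the quotient
  refine no_five (Q := V ⧸ span (ZMod 3) (v '' I))
    (fun i => (span (ZMod 3) (v '' I)).mkQ (v (a i))) ?_ ?_
  · intro i j hij
    have hsub : ({a i, a j} : Set α) ⊆ range a := by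
      rintro x (rfl | rfl) <;> exact mem_range_self _
    have h1 := (hiff _ (hsubE _ hsub)).1 (hpair i j hij)
    rw [h.matroid_indep_iff] at h1
    have h2 := h1.1
    rw [union_comm, linearIndepOn_union_iff_quotient (hdisj _ hsub),
      linearIndepOn_pair_iff' _ (fun hh => hij (ha hh))] at h2
    exact h2.2
  · intro i j k hij hik hjk hLI
    have hsub : ({a i, a j, a k} : Set α) ⊆ range a := by
      rintro x (rfl | rfl | rfl) <;> exact mem_range_self _
    apply htrip' i j k hij hik hjk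
    rw [union_comm, linearIndepOn_union_iff_quotient (hdisj _ hsub),
      linearIndepOn_triple_iff _ (fun hh => hij (ha hh)) (fun hh => hik (ha hh))
        (fun hh => hjk (ha hh))]
    exact ⟨hI.1, hLI⟩

/-- The special basis `S` of the linear matroid of `v` lies in many Fano-like
configurations. -/
def Fano (v : α → V) (S : Set α) : Prop :=
  ∀ r0 ∈ S, ∃ r1 r2 r3 d1 d2 d3 d4 : α,
    [r0, r1, r2, r3, d1, d2, d3, d4].Nodup ∧ r1 ∈ S ∧ r2 ∈ S ∧ r3 ∈ S ∧
    d1 ∉ S ∧ d2 ∉ S ∧ d3 ∉ S ∧ d4 ∉ S ∧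
    (∀ T ∈ ({{d1, d2, d3}, {d4, d2, d3}, {r1, d1, d3}, {r2, d1, d2}, {r3, d1, d2},
        {r1, d1, d4}} : Set (Set α)),
      LinearIndepOn (ZMod 3) v ((S \ {r1, r2, r3}) ∪ T)) ∧
    (∀ T ∈ ({{r1, d1, d2}, {r1, d3, d4}, {r2, d1, d3}, {r2, d2, d4}, {r3, d1, d4},
        {r3, d2, d3}} : Set (Set α)),
      ¬ LinearIndepOn (ZMod 3) v ((S \ {r1, r2, r3}) ∪ T))

end Compare

end Pool.Agent.Lib.MP_5d01ce_co
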