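import Pool.Agent.Lib.MP_5d01ce_co.Connectivity

/-!
Two small matroids of rank two on six elements, and the assembly of the antichain.
-/

set_option autoImplicit false

namespace Pool.Agent.Lib.MP_5d01ce_co

open Set Submodule

/-- The matroid on six elements in which a set is independent exactly when it has at most
two elements and is contained in `A`. -/
def line (A : Set (Fin 6)) : Matroid (Fin 6) :=
  (IndepMatroid.ofFinite (E := univ) finite_univ (fun I => I.ncard ≤ 2 ∧ I ⊆ A)
    (by simp)
    (fun I J hJ hIJ => ⟨(ncard_le_ncard hIJ (toFinite J)).trans hJ.1, hIJ.trans hJ.2⟩)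
    (fun I J hI hJ hlt => by
      obtain ⟨e, heJ, heI⟩ := exists_mem_notMem_of_ncard_lt_ncard hlt (toFinite I)
      refine ⟨e, heJ, heI, ?_, insert_subset (hJ.2 heJ) hI.2⟩
      rw [ncard_insert_of_notMem heI (toFinite I)]
      have := hJ.1
      omega)
    (fun _ _ => subset_univ _)).matroid

theorem line_indep (A I : Set (Fin 6)) : (line A).Indep I ↔ I.ncard ≤ 2 ∧ I ⊆ A := by
  simp [line]

theorem line_E (A : Set (Fin 6)) : (line A).E = univ := rfl

theorem unif_indep (r n : ℕ) (I : Set (Fin n)) : (unif r n).Indep I ↔ I.ncard ≤ r := by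
  simp [unif]

theorem unif_E (r n : ℕ) : (unif r n).E = univ := rfl

theorem line_eRank_le (A : Set (Fin 6)) : (line A).eRank ≤ 2 := by
  obtain ⟨B, hB⟩ := (line A).exists_isBase
  rw [← hB.encard_eq_eRank]
  have h1 := (line_indep A B).1 hB.indep
  rw [← (toFinite B).cast_ncard_eq]
  exact_mod_cast h1.1

/-- isomorphisms as injections with the right range -/
theorem isoMinor_data {α β : Type} {N : Matroid α} {M : Matroid β} (h : IsoMinor N M)
    (hNE : N.E = univ) : ∃ (M' : Matroid β) (φ : α → β), M' ≤m M ∧ Function.Injective φ ∧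
      range φ = M'.E ∧ ∀ J, N.Indep J ↔ M'.Indep (φ '' J) := by
  obtain ⟨M', hM', e, he⟩ := h
  have hmem : ∀ x : α, x ∈ N.E := fun x => by rw [hNE]; trivial
  refine ⟨M', fun x => (e ⟨x, hmem x⟩ : β), hM', ?_, ?_, ?_⟩
  · intro x y hxy
    have := e.injective (Subtype.ext hxy)
    simpa using this
  · ext y
    constructor
    · rintro ⟨x, rfl⟩
      exact (e ⟨x, hmem x⟩).2
    · intro hy
      refine ⟨(e.symm ⟨y, hy⟩ : α), ?_⟩
      simp
  · intro J
    have h1 := he ((fun x : N.E => (x : α)) ⁻¹' J)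
    have e1 : (fun x : N.E => (x : α)) '' ((fun x : N.E => (x : α)) ⁻¹' J) = J := by
      ext x
      constructor
      · rintro ⟨y, hy, rfl⟩
        exact hy
      · intro hx
        exact ⟨⟨x, hmem x⟩, hx, rfl⟩
    have e2 : (fun x : N.E => (e x : β)) '' ((fun x : N.E => (x : α)) ⁻¹' J)
        = (fun x => (e ⟨x, hmem x⟩ : β)) '' J := by
      ext x
      constructor
      · rintro ⟨y, hy, rfl⟩
        exact ⟨y, hy, rfl⟩
      · rintro ⟨y, hy, rfl⟩
        exact ⟨⟨y, hmem y⟩, hy, rfl⟩
    rw [e1, e2] at h1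
    exact h1

theorem IsoMinor.card_le {α β : Type} [Finite β] {N : Matroid α} {M : Matroid β}
    (h : IsoMinor N M) (hNE : N.E = univ) : Nat.card α ≤ Nat.card β := by
  obtain ⟨M', φ, -, hφ, -, -⟩ := isoMinor_data h hNE
  exact Nat.card_le_card_of_injective φ hφ

/-- the families of uniform-like matroids that are not minors of the tightened matroids -/
theorem no_iso_five {α V β : Type} [AddCommGroup V] [Module (ZMod 3) V]
    {v : α → V} {S₁ S₂ : Set α} {n : ℕ} (h : TightData (ZMod 3) v S₁ S₂ n)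
    {N : Matroid β} (hNE : N.E = univ) (b : Fin 5 → β) (hb : Function.Injective b)
    (hpair : ∀ i j, i ≠ j → N.Indep {b i, b j})
    (htrip : ∀ i j k, i ≠ j → i ≠ k → j ≠ k → ¬ N.Indep {b i, b j, b k}) :
    ¬ IsoMinor N h.matroid := by
  intro hiso
  obtain ⟨M', φ, hM', hφ, hrange, hiff⟩ := isoMinor_data hiso hNE
  refine h.no_U25 hM' (fun i => φ (b i)) (hφ.comp hb) ?_ ?_ ?_
  · intro i
    rw [← hrange]
    exact mem_range_self _
  · intro i j hij
    have := (hiff _).1 (hpair i j hij)
    rwa [image_insert_eq, image_singleton] at this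
  · intro i j k hij hik hjk hI
    apply htrip i j k hij hik hjk
    rw [hiff, image_insert_eq, image_insert_eq, image_singleton]
    exact hI

theorem line_not_minor {α V : Type} [AddCommGroup V] [Module (ZMod 3) V]
    {v : α → V} {S₁ S₂ : Set α} {n : ℕ} (h : TightData (ZMod 3) v S₁ S₂ n)
    (A : Set (Fin 6)) (hA : {5}ᶜ ⊆ A) : ¬ IsoMinor (line A) h.matroid := by
  have hmem : ∀ i : Fin 5, (Fin.castSucc i : Fin 6) ∈ A := by
    intro i
    apply hA
    have : ∀ i : Fin 5, (Fin.castSucc i : Fin 6) ≠ 5 := by decide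
    exact this i
  refine no_iso_five h (line_E A) Fin.castSucc (Fin.castSucc_injective 5) ?_ ?_
  · intro i j hij
    rw [line_indep, ncard_pair ((Fin.castSucc_injective 5).ne hij)]
    refine ⟨le_rfl, ?_⟩
    rintro x (rfl | rfl) <;> exact hmem _
  · intro i j k hij hik hjk hI
    rw [line_indep, ncard_insert_of_notMem, ncard_pair ((Fin.castSucc_injective 5).ne hjk)] at hI
    · have := hI.1
      omega
    · simp [hij, hik]

theorem unif_not_minor {α V : Type} [AddCommGroup V] [Module (ZMod 3) V]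
    {v : α → V} {S₁ S₂ : Set α} {n : ℕ} (h : TightData (ZMod 3) v S₁ S₂ n) :
    ¬ IsoMinor (unif 2 7) h.matroid := by
  have hinj : Function.Injective (Fin.castLE (show 5 ≤ 7 by norm_num)) :=
    Fin.castLE_injective _
  refine no_iso_five h (unif_E 2 7) (Fin.castLE (show 5 ≤ 7 by norm_num)) hinj ?_ ?_
  · intro i j hij
    rw [unif_indep, ncard_pair (hinj.ne hij)]
  · intro i j k hij hik hjk hI
    rw [unif_indep, ncard_insert_of_notMem, ncard_pair (hinj.ne hjk)] at hI
    · omega
    · simp [hij, hik]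

theorem line_sep_bound {A : Set (Fin 6)} {j : ℕ} {X Y I J : Set (Fin 6)}
    (hXY : IsSeparation (line A) j X Y) (hI : (line A).Indep I) (hIX : I ⊆ X)
    (hJ : (line A).Indep J) (hJY : J ⊆ Y) : I.ncard + J.ncard + 1 ≤ 2 + j := by
  obtain ⟨h1, h2, h3, h4, h5⟩ := hXY
  have hI' := hI.encard_le_eRk_of_subset hIX
  have hJ' := hJ.encard_le_eRk_of_subset hJY
  rw [← (toFinite I).cast_ncard_eq] at hI'
  rw [← (toFinite J).cast_ncard_eq] at hJ'
  have h6 : ((I.ncard : ℕ∞) + J.ncard + 1) ≤ 2 + j := by
    calc ((I.ncard : ℕ∞) + J.ncard + 1) ≤ (line A).eRk X + (line A).eRk Y + 1 := by gcongr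
      _ ≤ (line A).eRank + j := h5
      _ ≤ 2 + j := by gcongr; exact line_eRank_le A
  exact_mod_cast h6

theorem line_univ_conn : tutteConnectivity (line univ) = 3 := by
  apply tutteConnectivity_eq _ 3 (by norm_num)
  · refine ⟨{0, 1, 2}, {3, 4, 5}, ?_, ?_, ?_, ?_, ?_⟩
    · rw [line_E]
      ext x
      fin_cases x <;> simp
    · rw [disjoint_left]
      intro x
      fin_cases x <;> simp
    · rw [← (toFinite _).cast_ncard_eq, Nat.cast_le]
      rw [show ({0, 1, 2} : Set (Fin 6)) = (({0, 1, 2} : Finset (Fin 6)) : Set (Fin 6)) by simp,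
        ncard_coe_finset]
      decide
    · rw [← (toFinite _).cast_ncard_eq, Nat.cast_le]
      rw [show ({3, 4, 5} : Set (Fin 6)) = (({3, 4, 5} : Finset (Fin 6)) : Set (Fin 6)) by simp,
        ncard_coe_finset]
      decide
    · calc (line univ).eRk {0, 1, 2} + (line univ).eRk {3, 4, 5} + 1
          ≤ (line univ).eRank + 2 + 1 := by
            gcongr
            · exact Matroid.eRk_le_eRank _ _
            · exact (Matroid.eRk_le_eRank _ _).trans (line_eRank_le _)
        _ = (line univ).eRank + (3 : ℕ) := by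
            rw [add_assoc]
            norm_num
  · intro j hj1 hj3 X Y hsep
    have h1 : (j : ℕ∞) ≤ X.encard := hsep.2.2.1
    have h2 : (j : ℕ∞) ≤ Y.encard := hsep.2.2.2.1
    rw [← (toFinite _).cast_ncard_eq, Nat.cast_le] at h1 h2
    have h3 : X.ncard + Y.ncard = 6 := by
      rw [← ncard_union_eq hsep.2.1 (toFinite _) (toFinite _), hsep.1, line_E, ncard_univ,
        Nat.card_eq_fintype_card, Fintype.card_fin]
    have hex : ∀ Z : Set (Fin 6), ∃ I ⊆ Z, (line univ).Indep I ∧ I.ncard = min Z.ncard 2 := by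
      intro Z
      obtain ⟨I, hI, hIc⟩ := exists_subset_card_eq (s := Z) (min_le_left Z.ncard 2)
      refine ⟨I, hI, ?_, hIc⟩
      rw [line_indep]
      exact ⟨by rw [hIc]; exact min_le_right _ _, subset_univ _⟩
    obtain ⟨I, hIX, hI, hIc⟩ := hex X
    obtain ⟨J, hJY, hJ, hJc⟩ := hex Y
    have := line_sep_bound hsep hI hIX hJ hJY
    omega

theorem line_five_conn : tutteConnectivity (line {5}ᶜ) = 1 := by
  apply tutteConnectivity_eq _ 1 le_rfl
  · refine ⟨{5}, {5}ᶜ, ?_, disjoint_compl_right, ?_, ?_, ?_⟩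
    · rw [line_E, union_compl_self]
    · rw [encard_singleton]
      norm_num
    · have h1 : ({0} : Set (Fin 6)) ⊆ {5}ᶜ := by
        rintro x rfl
        simp
      refine le_trans ?_ (encard_le_encard h1)
      rw [encard_singleton]
      norm_num
    · have h1 : (line {5}ᶜ).eRk {5} = 0 := by
        rw [← le_zero_iff, Matroid.eRk_le_iff]
        intro I hI hInd
        rw [line_indep] at hInd
        have : I = ∅ := by
          rw [eq_empty_iff_forall_notMem]
          intro x hx
          exact hInd.2 hx (hI hx)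
        rw [this, encard_empty]
      rw [h1, zero_add]
      gcongr
      · exact Matroid.eRk_le_eRank _ _
      · norm_num
  · intro j h1 h2
    omega

/-- a minor with all elements is the whole matroid -/
theorem minor_univ {A : Set (Fin 6)} {N : Matroid (Fin 6)} (h : N ≤m line A)
    (hN : N.E = univ) (J : Set (Fin 6)) : N.Indep J ↔ (line A).Indep J := by
  obtain ⟨I, -, hIE, hiff⟩ := exists_indep_of_isMinor h
  have : I = ∅ := by
    rw [hN, disjoint_univ] at hIE
    exact hIE
  rw [hiff J (by rw [hN]; exact subset_univ _), this, union_empty]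

theorem line_incomparable (A B : Set (Fin 6)) (h : A.ncard ≠ B.ncard) :
    ¬ IsoMinor (line A) (line B) := by
  intro hiso
  obtain ⟨M', φ, hM', hφ, hrange, hiff⟩ := isoMinor_data hiso (line_E A)
  have hsurj : Function.Surjective φ := Finite.surjective_of_injective hφ
  rw [hsurj.range_eq] at hrange
  apply h
  have himg : φ '' A = B := by
    ext y
    obtain ⟨x, rfl⟩ := hsurj y
    have h1 := hiff {x}
    rw [image_singleton, minor_univ hM' hrange.symm, line_indep, line_indep] at h1
    simp only [ncard_singleton, singleton_subset_iff] at h1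
    constructor
    · rintro ⟨z, hz, hzx⟩
      rw [hφ hzx] at hz
      exact (h1.1 ⟨by norm_num, hz⟩).2
    · intro hx
      exact ⟨x, (h1.2 ⟨by norm_num, hx⟩).2, rfl⟩
  rw [← himg, ncard_image_of_injective _ hφ]

/-- The members of the antichain, indexed by their connectivity. -/
inductive Kind : ℕ → (Σ E : Type, Matroid E) → Prop
  | big (k : ℕ) (hk : k = 2 ∨ 4 ≤ k) (hk2 : 2 ≤ k) (w0 : Fin k → ZMod 2)
      (hw0 : ∑ i, Sys.sgn (w0 i) = 0) : Kind k ⟨Sys.Gr k, Sys.mat w0 hk2⟩
  | one : Kind 1 ⟨Fin 6, line {5}ᶜ⟩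
  | three : Kind 3 ⟨Fin 6, line univ⟩

theorem Kind.exists (k : ℕ) (hk : 1 ≤ k) : ∃ p, Kind k p := by
  by_cases h1 : k = 1
  · subst h1
    exact ⟨_, Kind.one⟩
  by_cases h3 : k = 3
  · subst h3
    exact ⟨_, Kind.three⟩
  have hk' : k = 2 ∨ 4 ≤ k := by omega
  have hk2 : 2 ≤ k := by omega
  obtain ⟨w, hw, -, -⟩ := Sys.exists_valid hk' ⟨0, by omega⟩ ⟨1, by omega⟩ (by
    intro h
    have := congrArg Fin.val h
    simp at this)
  exact ⟨_, Kind.big k hk' hk2 w hw⟩

theorem Kind.finite {k : ℕ} {p : Σ E : Type, Matroid E} (h : Kind k p) : Finite p.1 := by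
  cases h
  · exact inferInstanceAs (Finite (Sys.Gr k))
  · exact inferInstanceAs (Finite (Fin 6))
  · exact inferInstanceAs (Finite (Fin 6))

theorem Kind.conn {k : ℕ} {p : Σ E : Type, Matroid E} (h : Kind k p) :
    tutteConnectivity p.2 = k := by
  cases h with
  | big _ hk hk2 w0 hw0 => exact Sys.connectivity w0 hk hk2 hw0
  | one => exact_mod_cast line_five_conn
  | three => exact_mod_cast line_univ_conn

theorem card_Gr_gt (k : ℕ) (hk : 2 ≤ k) : 7 < Nat.card (Sys.Gr k) := by
  rw [Nat.card_eq_fintype_card, Fintype.card_sum, Sys.card_G]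
  calc 7 < 16 ^ 1 := by norm_num
    _ ≤ 16 ^ k := Nat.pow_le_pow_right (by norm_num) (by omega)
    _ ≤ _ := Nat.le_add_right _ _

theorem Kind.anti {k k' : ℕ} {p p' : Σ E : Type, Matroid E} (h : Kind k p) (h' : Kind k' p')
    (hkk : k ≠ k') : ¬ IsoMinor p.2 p'.2 := by
  have hc5 : ({5}ᶜ : Set (Fin 6)).ncard ≠ (univ : Set (Fin 6)).ncard := by
    have h1 := ncard_add_ncard_compl ({5} : Set (Fin 6))
    rw [ncard_singleton, Nat.card_eq_fintype_card, Fintype.card_fin] at h1
    rw [ncard_univ, Nat.card_eq_fintype_card, Fintype.card_fin]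
    omega
  have hc6 : Nat.card (Fin 6) = 6 := by simp
  cases h with
  | big _ hk hk2 w0 hw0 =>
    cases h' with
    | big _ hk' hk2' w0' hw0' =>
      exact (Sys.tightData w0 hk2).not_isoMinor (Sys.tightData w0' hk2') (Sys.fano1 w0 hk2)
        (Sys.fano2 w0 hk2) (by
          intro he
          exact hkk (Nat.pow_right_injective (by norm_num : 2 ≤ 16) he))
    | one =>
      intro hiso
      have h1 : Nat.card (Sys.Gr k) ≤ Nat.card (Fin 6) := hiso.card_le rfl
      have h2 := card_Gr_gt k hk2
      rw [hc6] at h1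
      omega
    | three =>
      intro hiso
      have h1 : Nat.card (Sys.Gr k) ≤ Nat.card (Fin 6) := hiso.card_le rfl
      have h2 := card_Gr_gt k hk2
      rw [hc6] at h1
      omega
  | one =>
    cases h' with
    | big _ hk' hk2' w0' hw0' =>
      exact line_not_minor (Sys.tightData w0' hk2') _ subset_rfl
    | one => exact absurd rfl hkk
    | three => exact line_incomparable _ _ hc5
  | three =>
    cases h' with
    | big _ hk' hk2' w0' hw0' =>
      exact line_not_minor (Sys.tightData w0' hk2') _ (subset_univ _)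
    | one => exact line_incomparable _ _ hc5.symm
    | three => exact absurd rfl hkk

theorem Kind.no_unif {k : ℕ} {p : Σ E : Type, Matroid E} (h : Kind k p) :
    ¬ IsoMinor (unif 2 7) p.2 := by
  have hc6 : Nat.card (Fin 6) = 6 := by simp
  have hc7 : Nat.card (Fin 7) = 7 := by simp
  cases h with
  | big _ hk hk2 w0 hw0 => exact unif_not_minor (Sys.tightData w0 hk2)
  | one =>
    intro hiso
    have h1 := hiso.card_le rfl
    rw [hc6, hc7] at h1
    omega
  | three =>
    intro hiso
    have h1 := hiso.card_le rfl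
    rw [hc6, hc7] at h1
    omega

/-- The counterexample. -/
theorem main : ∃ (E : ℕ → Type) (_ : ∀ i, Finite (E i)) (M : ∀ i, Matroid (E i)),
    (∀ i j, i ≠ j → ¬ IsoMinor (M i) (M j)) ∧
    (∀ i, tutteConnectivity (M i) = (i + 1 : ℕ)) ∧
    (∀ i, ¬ IsoMinor (unif 2 7) (M i)) := by
  choose p hp using fun i : ℕ => Kind.exists (i + 1) (Nat.le_add_left 1 i)
  refine ⟨fun i => (p i).1, fun i => (hp i).finite, fun i => (p i).2, ?_, ?_, ?_⟩
  · intro i j hij
    exact (hp i).anti (hp j) (by omega)
  · intro i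
    exact (hp i).conn
  · intro i
    exact (hp i).no_unif

end Pool.Agent.Lib.MP_5d01ce_co
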