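import Pool.Agent.Lib.MP_5d01ce_co.Compare

/-!
The concrete ternary matroids: standard basis, characters of an elementary abelian 2-group,
and bent functions.
-/

set_option autoImplicit false

namespace Pool.Agent.Lib.MP_5d01ce_co

open Set Submodule

namespace Sys

/-- sign of a bit, in `GF(3)` -/
def sgn (a : ZMod 2) : ZMod 3 := if a = 0 then 1 else -1

theorem sgn_add : ∀ a b : ZMod 2, sgn (a + b) = sgn a * sgn b := by decide
@[simp] theorem sgn_zero : sgn 0 = 1 := by decide
@[simp] theorem sgn_one : sgn 1 = -1 := by decide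
theorem sgn_ne_zero : ∀ a : ZMod 2, sgn a ≠ 0 := by decide
@[simp] theorem sgn_mul_self : ∀ a : ZMod 2, sgn a * sgn a = 1 := by decide

variable (k : ℕ)

/-- index set of the coordinates of `W` -/
abbrev Idx := Fin k ⊕ Fin k
/-- the elementary abelian group `Z_2^{2k}` -/
abbrev W := Idx k → ZMod 2
/-- the elementary abelian group `Z_2^{4k}` -/
abbrev G := W k × W k
/-- functions on `G` with values in `GF(3)` -/
abbrev Vec := G k → ZMod 3
/-- the ground set: points of `G`, characters of `G`, and `k` further elements -/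
abbrev Gr := G k ⊕ (G k ⊕ Fin k)

variable {k}

/-- the standard pairing on `W` -/
def dot (x z : W k) : ZMod 2 := ∑ i, x i * z i

theorem dot_comm (x z : W k) : dot x z = dot z x := by
  unfold dot
  exact Finset.sum_congr rfl fun i _ => mul_comm _ _

theorem dot_add_left (x y z : W k) : dot (x + y) z = dot x z + dot y z := by
  unfold dot
  rw [← Finset.sum_add_distrib]
  exact Finset.sum_congr rfl fun i _ => by rw [Pi.add_apply, add_mul]

theorem dot_add_right (x y z : W k) : dot x (y + z) = dot x y + dot x z := by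
  rw [dot_comm, dot_add_left, dot_comm y, dot_comm z]

@[simp] theorem dot_zero (x : W k) : dot x 0 = 0 := by simp [dot]
@[simp] theorem zero_dot (x : W k) : dot 0 x = 0 := by simp [dot]

theorem dot_single (x : W k) (i : Idx k) : dot (Pi.single i 1) x = x i := by
  unfold dot
  rw [Finset.sum_eq_single i]
  · simp
  · intro j _ hj
    rw [Pi.single_eq_of_ne hj, zero_mul]
  · intro h
    exact absurd (Finset.mem_univ i) h

/-- the standard pairing on `G` -/
def pr (s u : G k) : ZMod 2 := dot s.1 u.1 + dot s.2 u.2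

theorem pr_comm (s u : G k) : pr s u = pr u s := by
  unfold pr; rw [dot_comm s.1, dot_comm s.2]

theorem pr_add_left (s t u : G k) : pr (s + t) u = pr s u + pr t u := by
  unfold pr
  rw [Prod.fst_add, Prod.snd_add, dot_add_left, dot_add_left]
  ring

theorem pr_add_right (s t u : G k) : pr s (t + u) = pr s t + pr s u := by
  rw [pr_comm, pr_add_left, pr_comm t, pr_comm u]

@[simp] theorem pr_zero (s : G k) : pr s 0 = 0 := by simp [pr]

theorem card_W : (Fintype.card (W k) : ZMod 3) = 1 := by
  have h : Fintype.card (W k) = 4 ^ k := by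
    simp only [Fintype.card_fun, ZMod.card, Fintype.card_sum, Fintype.card_fin]
    rw [← two_mul, pow_mul]
    norm_num
  rw [h]
  push_cast
  have : (4 : ZMod 3) = 1 := by decide
  rw [this, one_pow]

theorem sum_sgn_dot (z : W k) : ∑ x : W k, sgn (dot x z) = if z = 0 then 1 else 0 := by
  split_ifs with h
  · subst h
    simp only [dot_zero, sgn_zero, Finset.sum_const, Finset.card_univ, nsmul_eq_mul, mul_one]
    exact card_W
  · obtain ⟨j, hj⟩ : ∃ j, z j ≠ 0 := by
      by_contra! hcon
      exact h (funext hcon)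
    have hj1 : z j = 1 := by
      have : ∀ a : ZMod 2, a ≠ 0 → a = 1 := by decide
      exact this _ hj
    have h1 : ∑ x : W k, sgn (dot x z) = ∑ x : W k, sgn (dot (Pi.single j 1 + x) z) :=
      (Equiv.sum_comp (Equiv.addLeft (Pi.single j 1 : W k)) (fun x => sgn (dot x z))).symm
    have h2 : ∑ x : W k, sgn (dot (Pi.single j 1 + x) z) = - ∑ x : W k, sgn (dot x z) := by
      rw [← Finset.sum_neg_distrib]
      refine Finset.sum_congr rfl fun x _ => ?_
      rw [dot_add_left, dot_single, sgn_add, hj1, sgn_one]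
      ring
    have h3 : ∀ a : ZMod 3, a = -a → a = 0 := by decide
    exact h3 _ (h1.trans h2)

theorem sum_sgn_pr (z : G k) : ∑ x : G k, sgn (pr x z) = if z = 0 then 1 else 0 := by
  unfold pr
  rw [Fintype.sum_prod_type]
  simp only [sgn_add]
  rw [← Finset.sum_mul_sum, sum_sgn_dot, sum_sgn_dot]
  by_cases h1 : z.1 = 0 <;> by_cases h2 : z.2 = 0 <;> simp [h1, h2, Prod.ext_iff]

/-- the Fourier transform -/
def four : Vec k →ₗ[ZMod 3] Vec k where
  toFun f := fun u => ∑ s : G k, f s * sgn (pr s u)
  map_add' f g := by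
    ext u
    simp only [Pi.add_apply, add_mul, Finset.sum_add_distrib]
  map_smul' c f := by
    ext u
    simp only [Pi.smul_apply, smul_eq_mul, mul_assoc, Finset.mul_sum, RingHom.id_apply]

theorem four_apply (f : Vec k) (u : G k) : four f u = ∑ s : G k, f s * sgn (pr s u) := rfl

theorem add_self_G (s : G k) : s + s = 0 := by
  have h2 : ∀ a : ZMod 2, a + a = 0 := by decide
  ext i <;> simp [h2]

theorem add_eq_zero_G {s t : G k} : s + t = 0 ↔ s = t := by
  constructor
  · intro h
    have : s = s + (t + t) := by rw [add_self_G, add_zero]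
    rw [this, ← add_assoc, h, zero_add]
  · rintro rfl
    exact add_self_G s

theorem add_self_W (s : W k) : s + s = 0 := by
  have h2 : ∀ a : ZMod 2, a + a = 0 := by decide
  ext i; simp [h2]

theorem add_eq_zero_W {s t : W k} : s + t = 0 ↔ s = t := by
  constructor
  · intro h
    have : s = s + (t + t) := by rw [add_self_W, add_zero]
    rw [this, ← add_assoc, h, zero_add]
  · rintro rfl
    exact add_self_W s

theorem four_four (f : Vec k) : four (four f) = f := by
  ext t
  rw [four_apply]
  simp only [four_apply, Finset.sum_mul]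
  rw [Finset.sum_comm]
  have : ∀ s : G k, ∑ u : G k, f s * sgn (pr s u) * sgn (pr u t) = if s = t then f s else 0 := by
    intro s
    have h1 : ∀ u : G k, f s * sgn (pr s u) * sgn (pr u t) = f s * sgn (pr u (s + t)) := by
      intro u
      rw [pr_add_right, sgn_add, pr_comm s u]
      ring
    simp only [h1]
    rw [← Finset.mul_sum, sum_sgn_pr]
    by_cases h : s = t
    · simp [h, add_self_G]
    · simp [h, add_eq_zero_G]
  simp only [this]
  simp

theorem four_injective : Function.Injective (four (k := k)) := by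
  intro f g h
  rw [← four_four f, h, four_four]

/-- characters -/
def chi (u : G k) : Vec k := fun s => sgn (pr s u)

/-- point masses -/
def pt (s : G k) : Vec k := Pi.single s 1

theorem pt_apply (s t : G k) : pt s t = if t = s then 1 else 0 := by
  unfold pt
  rw [Pi.single_apply]

theorem four_pt (s : G k) : four (pt s) = chi s := by
  ext u
  rw [four_apply]
  simp only [pt_apply, ite_mul, one_mul, zero_mul, Finset.sum_ite_eq', Finset.mem_univ, if_true]
  rw [chi, pr_comm]

theorem four_chi (s : G k) : four (chi s) = pt s := by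
  rw [← four_pt, four_four]

theorem pt_li : LinearIndependent (ZMod 3) (pt (k := k)) := by
  have := (Pi.basisFun (ZMod 3) (G k)).linearIndependent
  convert this using 1
  ext s t
  simp [pt, Pi.basisFun_apply]

theorem chi_li : LinearIndependent (ZMod 3) (chi (k := k)) := by
  have := pt_li (k := k)
  have h2 := this.map' four (LinearMap.ker_eq_bot.2 four_injective)
  have e : (chi (k := k)) = four ∘ pt := by
    ext1 s
    rw [Function.comp_apply, four_pt]
  rw [e]
  exact h2

/-- the selected sign vector -/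
def sel (w0 : Fin k → ZMod 2) (y : W k) : Fin k → ZMod 2 :=
  if ∑ i, sgn (y (Sum.inl i)) = 0 then fun i => y (Sum.inl i) else w0

theorem sel_sum {w0 : Fin k → ZMod 2} (hw0 : ∑ i, sgn (w0 i) = 0) (y : W k) :
    ∑ i, sgn (sel w0 y i) = 0 := by
  unfold sel
  split_ifs with h
  · exact h
  · exact hw0

/-- the bent functions -/
def bent (w0 : Fin k → ZMod 2) (i : Fin k) : Vec k :=
  fun s => sgn (dot s.1 s.2) * sgn (sel w0 s.2 i)

theorem bent_ne_zero (w0 : Fin k → ZMod 2) (i : Fin k) (s : G k) : bent w0 i s ≠ 0 :=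
  mul_ne_zero (sgn_ne_zero _) (sgn_ne_zero _)

theorem four_bent (w0 : Fin k → ZMod 2) (i : Fin k) (u : G k) :
    four (bent w0 i) u = sgn (dot u.1 u.2) * sgn (sel w0 u.1 i) := by
  rw [four_apply, Fintype.sum_prod_type, Finset.sum_comm]
  have h : ∀ y : W k, ∑ x : W k, bent w0 i (x, y) * sgn (pr (x, y) u) =
      if y = u.1 then sgn (sel w0 y i) * sgn (dot y u.2) else 0 := by
    intro y
    have h1 : ∀ x : W k, bent w0 i (x, y) * sgn (pr (x, y) u) =
        sgn (sel w0 y i) * sgn (dot y u.2) * sgn (dot x (y + u.1)) := by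
      intro x
      simp only [bent, pr]
      rw [sgn_add, dot_add_right, sgn_add]
      ring
    simp only [h1]
    rw [← Finset.mul_sum, sum_sgn_dot]
    by_cases hy : y = u.1
    · simp [hy, add_self_W]
    · simp [hy, add_eq_zero_W]
  simp only [h]
  simp [mul_comm]

theorem four_bent_ne_zero (w0 : Fin k → ZMod 2) (i : Fin k) (u : G k) :
    four (bent w0 i) u ≠ 0 := by
  rw [four_bent]
  exact mul_ne_zero (sgn_ne_zero _) (sgn_ne_zero _)

/-- the vectors of the matroid -/
def vec (w0 : Fin k → ZMod 2) : Gr k → Vec k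
  | .inl s => pt s
  | .inr (.inl u) => chi u
  | .inr (.inr i) => bent w0 i

/-- the first special basis -/
def R1 (k : ℕ) : Set (Gr k) := range Sum.inl
/-- the second special basis -/
def R2 (k : ℕ) : Set (Gr k) := range (fun u => Sum.inr (Sum.inl u))

theorem card_G : Fintype.card (G k) = 16 ^ k := by
  simp only [Fintype.card_prod, Fintype.card_fun, ZMod.card, Fintype.card_sum, Fintype.card_fin]
  rw [← two_mul, pow_mul, ← mul_pow]
  norm_num

theorem tightData (w0 : Fin k → ZMod 2) (hk : 2 ≤ k) :
    TightData (ZMod 3) (vec w0) (R1 k) (R2 k) (16 ^ k) := by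
  have inj2 : Function.Injective (fun u : G k => (Sum.inr (Sum.inl u) : Gr k)) := by
    intro a b h
    simpa using h
  have hS1 : LinearIndepOn (ZMod 3) (vec w0) (R1 k) := by
    rw [R1, linearIndepOn_range_iff Sum.inl_injective]
    exact pt_li
  have hS2 : LinearIndepOn (ZMod 3) (vec w0) (R2 k) := by
    rw [R2, linearIndepOn_range_iff inj2]
    exact chi_li
  have swap : ∀ (S : Set (Gr k)) (e f : Gr k) (ℓ : Vec k →ₗ[ZMod 3] ZMod 3),
      LinearIndepOn (ZMod 3) (vec w0) S → (∀ x ∈ S, x ≠ e → ℓ (vec w0 x) = 0) →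
      ℓ (vec w0 f) ≠ 0 → LinearIndepOn (ZMod 3) (vec w0) (insert f (S \ {e})) := by
    intro S e f ℓ hS h0 hf
    apply (hS.mono sdiff_subset).insert
    intro hmem
    apply hf
    have : span (ZMod 3) (vec w0 '' (S \ {e})) ≤ LinearMap.ker ℓ := by
      rw [span_le]
      rintro _ ⟨x, hx, rfl⟩
      exact h0 x hx.1 hx.2
    exact this hmem
  refine ⟨inferInstance, hS1, hS2, ?_, ?_, ?_, ?_, ?_, ?_, ?_⟩
  · rw [R1, ← image_univ, ncard_image_of_injective _ Sum.inl_injective, ncard_univ,
      Nat.card_eq_fintype_card, card_G]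
  · rw [R2, ← image_univ, ncard_image_of_injective _ inj2, ncard_univ,
      Nat.card_eq_fintype_card, card_G]
  · intro I hI
    have : Fintype I := Fintype.ofFinite I
    have h1 := LinearIndependent.fintype_card_le_finrank hI
    rw [Module.finrank_fintype_fun_eq_card, card_G] at h1
    rwa [← Nat.card_coe_set_eq, Nat.card_eq_fintype_card]
  · rintro _ ⟨r, rfl⟩ f hf
    apply swap _ _ _ (LinearMap.proj r) hS1
    · rintro _ ⟨s, rfl⟩ hs
      have : s ≠ r := fun h => hs (by rw [h])
      simp [vec, pt_apply, this.symm]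
    · rcases f with s | u | i
      · exact absurd ⟨s, rfl⟩ hf
      · exact sgn_ne_zero _
      · exact bent_ne_zero w0 i r
  · rintro _ ⟨r, rfl⟩ f hf
    apply swap _ _ _ ((LinearMap.proj r) ∘ₗ four) hS2
    · rintro _ ⟨s, rfl⟩ hs
      have : s ≠ r := fun h => hs (by rw [h])
      simp [vec, four_chi, pt_apply, this.symm]
    · rcases f with s | u | i
      · simp only [LinearMap.comp_apply, vec, four_pt]
        exact sgn_ne_zero _
      · exact absurd ⟨u, rfl⟩ hf
      · exact four_bent_ne_zero w0 i r
  · rw [disjoint_left]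
    rintro _ ⟨s, rfl⟩ ⟨u, hu⟩
    simp at hu
  · calc 5 ≤ 16 ^ 1 := by norm_num
      _ ≤ 16 ^ k := Nat.pow_le_pow_right (by norm_num) (by omega)

/-- Reduction of independence over most of the standard basis to a `3 × 3` determinant. -/
theorem li_iff_det (w0 : Fin k → ZMod 2) (a b c : G k) (hab : a ≠ b) (hac : a ≠ c)
    (hbc : b ≠ c) (x y z : Gr k) (hxy : x ≠ y) (hxz : x ≠ z) (hyz : y ≠ z)
    (hx : x ∉ R1 k \ {Sum.inl a, Sum.inl b, Sum.inl c})
    (hy : y ∉ R1 k \ {Sum.inl a, Sum.inl b, Sum.inl c})
    (hz : z ∉ R1 k \ {Sum.inl a, Sum.inl b, Sum.inl c}) :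
    LinearIndepOn (ZMod 3) (vec w0) ((R1 k \ {Sum.inl a, Sum.inl b, Sum.inl c}) ∪ {x, y, z}) ↔
      (Matrix.of ![![vec w0 x a, vec w0 x b, vec w0 x c], ![vec w0 y a, vec w0 y b, vec w0 y c],
        ![vec w0 z a, vec w0 z b, vec w0 z c]]).det ≠ 0 := by
  set X : Set (Gr k) := R1 k \ {Sum.inl a, Sum.inl b, Sum.inl c} with hX
  -- the restriction map to the three coordinates
  let f : Vec k →ₗ[ZMod 3] (Fin 3 → ZMod 3) :=
    LinearMap.pi ![LinearMap.proj a, LinearMap.proj b, LinearMap.proj c]
  have hf : ∀ w, f w = ![w a, w b, w c] := by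
    intro w
    ext i
    fin_cases i <;> rfl
  have hker : LinearMap.ker f = span (ZMod 3) (vec w0 '' X) := by
    apply le_antisymm
    · intro w hw
      have hw' : f w = 0 := hw
      rw [hf] at hw'
      have ha := congrFun hw' 0
      have hb := congrFun hw' 1
      have hc := congrFun hw' 2
      simp only [Matrix.cons_val_zero, Matrix.cons_val_one, Matrix.cons_val, Pi.zero_apply]
        at ha hb hc
      have hsum : w = ∑ s : G k, w s • pt s := by
        ext t
        simp [Finset.sum_apply, pt_apply]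
      rw [hsum]
      apply Submodule.sum_mem
      intro s _
      by_cases hs : s = a ∨ s = b ∨ s = c
      · have : w s = 0 := by
          rcases hs with rfl | rfl | rfl <;> assumption
        rw [this, zero_smul]
        exact Submodule.zero_mem _
      · push Not at hs
        apply Submodule.smul_mem
        apply subset_span
        refine ⟨Sum.inl s, ⟨⟨s, rfl⟩, ?_⟩, rfl⟩
        simp [hs.1, hs.2.1, hs.2.2]
    · rw [span_le]
      rintro _ ⟨e, ⟨⟨s, rfl⟩, hs⟩, rfl⟩
      simp only [mem_insert_iff, mem_singleton_iff, Sum.inl.injEq, not_or] at hs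
      show f (pt s) = 0
      rw [hf]
      ext i
      fin_cases i
      · simp [pt_apply, Ne.symm hs.1]
      · simp [pt_apply, Ne.symm hs.2.1]
      · simp [pt_apply, Ne.symm hs.2.2]
  have hXli : LinearIndepOn (ZMod 3) (vec w0) X := by
    have hS1 : LinearIndepOn (ZMod 3) (vec w0) (R1 k) := by
      rw [R1, linearIndepOn_range_iff Sum.inl_injective]
      exact pt_li
    exact hS1.mono sdiff_subset
  have hdisj : Disjoint X {x, y, z} := by
    rw [disjoint_right]
    rintro t (rfl | rfl | rfl) <;> assumption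
  rw [linearIndepOn_union_iff_quotient hdisj, linearIndepOn_triple_iff _ hxy hxz hyz, ← hker]
  -- pass from the quotient to the image
  have hq : ∀ m : Fin 3 → Vec k, LinearIndependent (ZMod 3) (fun i => (LinearMap.ker f).mkQ (m i)) ↔
      LinearIndependent (ZMod 3) (fun i => f (m i)) := by
    intro m
    let g := (LinearMap.ker f).liftQ f le_rfl
    have hg : LinearMap.ker g = ⊥ := Submodule.ker_liftQ_eq_bot _ _ _ le_rfl
    have := LinearMap.linearIndependent_iff (v := fun i => (LinearMap.ker f).mkQ (m i)) g hg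
    rw [← this]
    rfl
  have hq' := hq ![vec w0 x, vec w0 y, vec w0 z]
  have e1 : (fun i => (LinearMap.ker f).mkQ ((![vec w0 x, vec w0 y, vec w0 z] : Fin 3 → Vec k) i))
      = ![((LinearMap.ker f).mkQ ∘ vec w0) x, ((LinearMap.ker f).mkQ ∘ vec w0) y,
          ((LinearMap.ker f).mkQ ∘ vec w0) z] := by
    ext1 i
    fin_cases i <;> rfl
  have e2 : (fun i => f ((![vec w0 x, vec w0 y, vec w0 z] : Fin 3 → Vec k) i))
      = ![![vec w0 x a, vec w0 x b, vec w0 x c], ![vec w0 y a, vec w0 y b, vec w0 y c],
        ![vec w0 z a, vec w0 z b, vec w0 z c]] := by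
    ext1 i
    fin_cases i
    · exact hf _
    · exact hf _
    · exact hf _
  rw [e1, e2] at hq'
  rw [hq', and_iff_right hXli]
  have := Matrix.linearIndependent_rows_iff_isUnit (K := ZMod 3)
    (A := Matrix.of ![![vec w0 x a, vec w0 x b, vec w0 x c], ![vec w0 y a, vec w0 y b, vec w0 y c],
        ![vec w0 z a, vec w0 z b, vec w0 z c]])
  rw [Matrix.isUnit_iff_isUnit_det, isUnit_iff_ne_zero] at this
  exact this

end Sys

end Pool.Agent.Lib.MP_5d01ce_co
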