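import Pool.Agent.Lib.MP_5d01ce_co.Defs
import Mathlib.LinearAlgebra.Dimension.Constructions
import Mathlib.LinearAlgebra.LinearIndependent.Lemmas
import Mathlib.LinearAlgebra.Dimension.Finite
import Mathlib.LinearAlgebra.FiniteDimensional.Basic

/-!
A linear matroid with two disjoint special bases declared dependent.
-/

set_option autoImplicit false

namespace Pool.Agent.Lib.MP_5d01ce_co

open Set Submodule

/-- The data needed for removing two bases `S₁, S₂` from a linear matroid. -/
structure TightData (F : Type) {α V : Type} [Field F] [AddCommGroup V] [Module F V]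
    (v : α → V) (S₁ S₂ : Set α) (n : ℕ) : Prop where
  fin : Finite α
  ind₁ : LinearIndepOn F v S₁
  ind₂ : LinearIndepOn F v S₂
  card₁ : S₁.ncard = n
  card₂ : S₂.ncard = n
  bound : ∀ I : Set α, LinearIndepOn F v I → I.ncard ≤ n
  free₁ : ∀ e ∈ S₁, ∀ f ∉ S₁, LinearIndepOn F v (insert f (S₁ \ {e}))
  free₂ : ∀ e ∈ S₂, ∀ f ∉ S₂, LinearIndepOn F v (insert f (S₂ \ {e}))
  disj : Disjoint S₁ S₂
  two_le : 5 ≤ n

variable {F α V : Type} [Field F] [AddCommGroup V] [Module F V]
  {v : α → V} {S₁ S₂ : Set α} {n : ℕ}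

namespace TightData

theorem symm (h : TightData F v S₁ S₂ n) : TightData F v S₂ S₁ n where
  fin := h.fin
  ind₁ := h.ind₂
  ind₂ := h.ind₁
  card₁ := h.card₂
  card₂ := h.card₁
  bound := h.bound
  free₁ := h.free₂
  free₂ := h.free₁
  disj := h.disj.symm
  two_le := h.two_le

/-- Linear-algebra augmentation. -/
theorem lin_aug (h : TightData F v S₁ S₂ n) {I J : Set α} (hI : LinearIndepOn F v I)
    (hJ : LinearIndepOn F v J) (hlt : I.ncard < J.ncard) :
    ∃ e ∈ J, e ∉ I ∧ LinearIndepOn F v (insert e I) := by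
  classical
  haveI := h.fin
  by_contra! hcon
  have hsub : ∀ e ∈ J, v e ∈ span F (v '' I) := by
    intro e he
    by_cases heI : e ∈ I
    · exact subset_span (mem_image_of_mem v heI)
    · by_contra hns
      exact hcon e he heI (hI.insert hns)
  haveI : Fintype I := Fintype.ofFinite I
  haveI : Fintype J := Fintype.ofFinite J
  have h1 : span F (v '' J) ≤ span F (v '' I) := by
    rw [span_le]
    rintro _ ⟨e, he, rfl⟩
    exact hsub e he
  haveI : FiniteDimensional F (span F (v '' I)) :=
    FiniteDimensional.span_of_finite F ((toFinite I).image v)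
  have h2 := Submodule.finrank_mono h1
  have e1 : Module.finrank F (span F (v '' I)) = I.ncard := by
    have := finrank_span_eq_card (R := F) (b := fun x : I => v x) hI
    rw [image_eq_range, this, ← Nat.card_coe_set_eq, Nat.card_eq_fintype_card]
  have e2 : Module.finrank F (span F (v '' J)) = J.ncard := by
    have := finrank_span_eq_card (R := F) (b := fun x : J => v x) hJ
    rw [image_eq_range, this, ← Nat.card_coe_set_eq, Nat.card_eq_fintype_card]
  rw [e1, e2] at h2
  omega

/-- The independence predicate of the tightened matroid. -/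
def TInd (F : Type) {α V : Type} [Field F] [AddCommGroup V] [Module F V]
    (v : α → V) (S₁ S₂ : Set α) (I : Set α) : Prop :=
  LinearIndepOn F v I ∧ I ≠ S₁ ∧ I ≠ S₂

theorem tind_of_lt (h : TightData F v S₁ S₂ n) {I : Set α} (hI : LinearIndepOn F v I)
    (hlt : I.ncard < n) : TInd F v S₁ S₂ I := by
  refine ⟨hI, ?_, ?_⟩
  · rintro rfl
    rw [h.card₁] at hlt
    omega
  · rintro rfl
    rw [h.card₂] at hlt
    omega

/-- exchanging one element of the special basis `S₁` gives an independent set -/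
theorem tind_swap₁ (h : TightData F v S₁ S₂ n) {e f : α} (he : e ∈ S₁) (hf : f ∉ S₁) :
    TInd F v S₁ S₂ (insert f (S₁ \ {e})) := by
  haveI := h.fin
  refine ⟨h.free₁ e he f hf, ?_, ?_⟩
  · intro hS
    exact hf (hS ▸ mem_insert f _)
  · intro hS
    have hc : 2 ≤ S₁.ncard := by rw [h.card₁]; linarith [h.two_le]
    have : ∃ g ∈ S₁, g ≠ e := by
      by_contra! hcon
      have : S₁ ⊆ {e} := fun x hx => hcon x hx
      have := ncard_le_ncard this (toFinite _)
      rw [ncard_singleton] at this
      omega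
    obtain ⟨g, hg, hge⟩ := this
    have hgS : g ∈ S₂ := by
      rw [← hS]
      exact mem_insert_of_mem _ ⟨hg, hge⟩
    exact (disjoint_left.1 h.disj hg) hgS

theorem tind_swap₂ (h : TightData F v S₁ S₂ n) {e f : α} (he : e ∈ S₂) (hf : f ∉ S₂) :
    TInd F v S₁ S₂ (insert f (S₂ \ {e})) := by
  have := h.symm.tind_swap₁ he hf
  exact ⟨this.1, this.2.2, this.2.1⟩

theorem aug (h : TightData F v S₁ S₂ n) {I J : Set α} (hI : TInd F v S₁ S₂ I)
    (hJ : TInd F v S₁ S₂ J) (hlt : I.ncard < J.ncard) :
    ∃ e ∈ J, e ∉ I ∧ TInd F v S₁ S₂ (insert e I) := by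
  haveI := h.fin
  obtain ⟨e, heJ, heI, hins⟩ := h.lin_aug hI.1 hJ.1 hlt
  have key : ∀ S T : Set α, TightData F v S T n → J ≠ S → insert e I = S →
      ∃ e ∈ J, e ∉ I ∧ TInd F v S T (insert e I) := by
    intro S T hST hJS hIS
    have hI' : I = S \ {e} := by
      rw [← hIS]
      simp [heI]
    have heS : e ∈ S := hIS ▸ mem_insert e I
    have hcI : I.ncard + 1 = n := by
      rw [← ncard_insert_of_notMem heI (toFinite I), hIS, hST.card₁]
    have hcJ : J.ncard = n := by
      have := hST.bound J hJ.1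
      omega
    have : ∃ f ∈ J, f ∉ S := by
      by_contra! hcon
      apply hJS
      exact eq_of_subset_of_ncard_le hcon (by rw [hST.card₁, hcJ]) (toFinite _)
    obtain ⟨f, hfJ, hfS⟩ := this
    refine ⟨f, hfJ, ?_, ?_⟩
    · intro hfI
      apply hfS
      rw [hI'] at hfI
      exact hfI.1
    · rw [hI']
      exact hST.tind_swap₁ heS hfS
  by_cases h1 : insert e I = S₁
  · exact key S₁ S₂ h hJ.2.1 h1
  by_cases h2 : insert e I = S₂
  · obtain ⟨f, hf, hfI, hT⟩ := key S₂ S₁ h.symm hJ.2.2 h2
    exact ⟨f, hf, hfI, hT.1, hT.2.2, hT.2.1⟩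
  exact ⟨e, heJ, heI, hins, h1, h2⟩

theorem tind_subset (h : TightData F v S₁ S₂ n) {I J : Set α} (hJ : TInd F v S₁ S₂ J)
    (hIJ : I ⊆ J) : TInd F v S₁ S₂ I := by
  haveI := h.fin
  rcases eq_or_ssubset_of_subset hIJ with rfl | hss
  · exact hJ
  · apply h.tind_of_lt (hJ.1.mono hIJ)
    exact (ncard_lt_ncard hss (toFinite J)).trans_le (h.bound J hJ.1)

/-- The matroid obtained from the linear matroid of `v` by declaring the two bases `S₁` and
`S₂` dependent. -/
noncomputable def matroid (h : TightData F v S₁ S₂ n) : Matroid α :=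
  haveI := h.fin
  (IndepMatroid.ofFinite (E := univ) finite_univ (fun I => TInd F v S₁ S₂ I)
    (by
      apply h.tind_of_lt (linearIndepOn_empty F v)
      rw [ncard_empty]
      linarith [h.two_le])
    (fun I J hJ hIJ => h.tind_subset hJ hIJ)
    (fun I J hI hJ hlt => h.aug hI hJ hlt)
    (fun _ _ => subset_univ _)).matroid

@[simp] theorem matroid_indep_iff (h : TightData F v S₁ S₂ n) (I : Set α) :
    h.matroid.Indep I ↔ TInd F v S₁ S₂ I := by
  simp [matroid]

@[simp] theorem matroid_E (h : TightData F v S₁ S₂ n) : h.matroid.E = univ := rfl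

end TightData

end Pool.Agent.Lib.MP_5d01ce_co
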